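import Pool.Agent.Lib.MP_092512_nt.EV.Defs

/-!
# Even sums, module Sq: simultaneous squarefree values of linear forms

Let `n = F.card`. A prime `p` which divides some `α T + β` (`(α, β) ∈ F`) does not divide `α` (coprimality), so `p > 4 n`. Consider `T ∈ (T0, T0 + X]`. If
`α T + β` is not squarefree, then `p ^ 2 ∣ α T + β` for a prime `4 n < p`, `p ^ 2 ≤ M (T0 + X + 1)`, `M` a bound for all `α`, `β`; for given `p`, `(α, β)`
these `T` are one class modulo `p ^ 2`: at most `X / p ^ 2 + 1`. Total number of bad `T`: `≤ n (X ∑_{p > 4 n} 1 / p ^ 2 + √(M (T0 + X + 1))) ≤ X / 4 + n √(..) < X`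
for `X` large (`∑_{k > K} 1 / k ^ 2 ≤ 1 / K`).
-/

set_option autoImplicit false

open Finset

namespace Pool.Agent.Lib.EV

theorem sqf_count (T0 X q : ℕ) (S : Finset ℕ) (hS : ∀ T ∈ S, T0 < T ∧ T ≤ T0 + X)
    (hc : ∀ T ∈ S, ∀ T' ∈ S, T ≡ T' [MOD q]) : S.card ≤ X / q + 1 := by
  have h1 : S.card ≤ (range (X / q + 1)).card := by
    refine card_le_card_of_injOn (fun T => (T - T0 - 1) / q) ?_ ?_
    · intro T hT
      have hT' := hS T hT
      have h2 : (T - T0 - 1) / q ≤ X / q := Nat.div_le_div_right (by omega)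
      have h3 : (T - T0 - 1) / q < X / q + 1 := by omega
      exact mem_coe.2 (mem_range.2 h3)
    · intro T hT T' hT' he
      have he' : (T - T0 - 1) / q = (T' - T0 - 1) / q := he
      have h2 := hS T hT
      have h3 := hS T' hT'
      have h4 : T - T0 - 1 ≡ T' - T0 - 1 [MOD q] := by
        have h5 : (T - T0 - 1) + (T0 + 1) ≡ (T' - T0 - 1) + (T0 + 1) [MOD q] := by
          have e1 : (T - T0 - 1) + (T0 + 1) = T := by omega
          have e2 : (T' - T0 - 1) + (T0 + 1) = T' := by omega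
          rw [e1, e2]
          exact hc T hT T' hT'
        exact Nat.ModEq.add_right_cancel' _ h5
      have h6 : (T - T0 - 1) % q = (T' - T0 - 1) % q := h4
      have h7 := Nat.div_add_mod (T - T0 - 1) q
      have h8 := Nat.div_add_mod (T' - T0 - 1) q
      rw [he', h6] at h7
      omega
  rw [card_range] at h1
  exact h1

theorem sqf_sum (K R X : ℕ) (hK : 0 < K) :
    (∑ p ∈ Ioc K R, ((X / p ^ 2 + 1 : ℕ) : ℝ)) ≤ X / K + R := by
  have h1 : ∀ p ∈ Ioc K R, ((X / p ^ 2 + 1 : ℕ) : ℝ) ≤ (X : ℝ) * (((p : ℝ)) ^ 2)⁻¹ + 1 := by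
    intro p _
    have h2 : ((X / p ^ 2 : ℕ) : ℝ) ≤ (X : ℝ) / ((p ^ 2 : ℕ) : ℝ) := Nat.cast_div_le
    push_cast at h2 ⊢
    rw [div_eq_mul_inv] at h2
    linarith
  refine (sum_le_sum h1).trans ?_
  rw [sum_add_distrib, ← mul_sum, sum_const, Nat.card_Ioc, nsmul_eq_mul, mul_one]
  have h3 : (∑ p ∈ Ioc K R, (((p : ℝ)) ^ 2)⁻¹) ≤ ((K : ℝ))⁻¹ := by
    rcases le_or_gt K R with h | h
    · have h4 := sum_Ioc_inv_sq_le_sub (α := ℝ) (k := K) (n := R) (by omega) h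
      have h5 : (0 : ℝ) ≤ ((R : ℝ))⁻¹ := by positivity
      linarith
    · rw [Ioc_eq_empty (by omega), sum_empty]
      positivity
  have h6 : (X : ℝ) * (∑ p ∈ Ioc K R, (((p : ℝ)) ^ 2)⁻¹) ≤ (X : ℝ) * ((K : ℝ))⁻¹ :=
    mul_le_mul_of_nonneg_left h3 (by positivity)
  have h7 : ((R - K : ℕ) : ℝ) ≤ R := by
    exact_mod_cast Nat.sub_le R K
  rw [div_eq_mul_inv]
  linarith

theorem sqf (F : Finset (ℕ × ℕ)) (hF : ∀ f ∈ F, 0 < f.1 ∧ f.1.Coprime f.2)
    (hp : ∀ p : ℕ, p.Prime → p ≤ 4 * F.card → ∀ f ∈ F, p ∣ f.1) (T0 : ℕ) :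
    ∃ T, T0 ≤ T ∧ ∀ f ∈ F, Squarefree (f.1 * T + f.2) := by
  classical
  rcases F.eq_empty_or_nonempty with h0 | h0
  · refine ⟨T0, le_rfl, ?_⟩
    rw [h0]
    intro f hf
    exact absurd hf (notMem_empty f)
  have hn : 0 < F.card := card_pos.2 h0
  obtain ⟨M, hM1, hM⟩ : ∃ M : ℕ, 0 < M ∧ ∀ f ∈ F, f.1 ≤ M ∧ f.2 ≤ M := by
    refine ⟨(∑ f ∈ F, (f.1 + f.2)) + 1, by omega, ?_⟩
    intro f hf
    have h1 : f.1 + f.2 ≤ ∑ f ∈ F, (f.1 + f.2) :=
      single_le_sum (f := fun f : ℕ × ℕ => f.1 + f.2) (fun _ _ => Nat.zero_le _) hf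
    constructor <;> omega
  obtain ⟨X, hX⟩ : ∃ X : ℕ, X = 8 * F.card ^ 2 * M + T0 + 2 := ⟨_, rfl⟩
  obtain ⟨R, hR⟩ : ∃ R : ℕ, R = Nat.sqrt (M * (T0 + X + 1)) := ⟨_, rfl⟩
  have hRR : R * R ≤ M * (T0 + X + 1) := by
    rw [hR]
    exact Nat.sqrt_le _
  have hR2 : 2 * (F.card * R) < X := by
    by_contra hcon
    have h1 : X ≤ 2 * (F.card * R) := by omega
    have h2 : X * X ≤ 4 * (F.card ^ 2 * (R * R)) := by
      calc X * X ≤ (2 * (F.card * R)) * (2 * (F.card * R)) := Nat.mul_le_mul h1 h1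
        _ = 4 * (F.card ^ 2 * (R * R)) := by ring
    have h3 : 4 * (F.card ^ 2 * (R * R)) ≤ 4 * (F.card ^ 2 * (M * (2 * X))) := by
      have h4 : M * (T0 + X + 1) ≤ M * (2 * X) := Nat.mul_le_mul_left _ (by omega)
      exact Nat.mul_le_mul_left _ (Nat.mul_le_mul_left _ (hRR.trans h4))
    have h5 : 4 * (F.card ^ 2 * (M * (2 * X))) = (8 * F.card ^ 2 * M) * X := by ring
    have h6 : X * X ≤ (8 * F.card ^ 2 * M) * X := by
      rw [← h5]
      exact h2.trans h3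
    have h7 : X ≤ 8 * F.card ^ 2 * M := Nat.le_of_mul_le_mul_right h6 (by omega)
    omega
  -- the bad values
  let bad : ℕ × ℕ → ℕ → Finset ℕ := fun f p =>
    (Ioc T0 (T0 + X)).filter (fun T => p.Prime ∧ p ^ 2 ∣ f.1 * T + f.2)
  have hbad : ∀ f ∈ F, ∀ p ∈ Ioc (4 * F.card) R, (bad f p).card ≤ X / p ^ 2 + 1 := by
    intro f hf p hp'
    rcases (bad f p).eq_empty_or_nonempty with he | ⟨T1, hT1⟩
    · rw [he, card_empty]
      exact Nat.zero_le _
    have hpp : p.Prime := (mem_filter.1 hT1).2.1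
    refine sqf_count T0 X (p ^ 2) (bad f p) ?_ ?_
    · intro T hT
      exact mem_Ioc.1 (mem_filter.1 hT).1
    · intro T hT T' hT'
      have h1 := (mem_filter.1 hT).2.2
      have h2 := (mem_filter.1 hT').2.2
      have hcop : Nat.Coprime (p ^ 2) f.1 := by
        refine Nat.Coprime.pow_left 2 ?_
        rw [Nat.Prime.coprime_iff_not_dvd hpp]
        intro hd
        have h3 : p ∣ f.1 * T + f.2 := (dvd_pow_self p (by norm_num)).trans h1
        have h4 : p ∣ f.2 := (Nat.dvd_add_right (hd.mul_right T)).1 h3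
        have h5 := Nat.dvd_gcd hd h4
        rw [(hF f hf).2] at h5
        exact hpp.one_lt.ne' (Nat.dvd_one.1 h5)
      have h3 : f.1 * T + f.2 ≡ f.1 * T' + f.2 [MOD p ^ 2] :=
        ((Nat.modEq_zero_iff_dvd).2 h1).trans ((Nat.modEq_zero_iff_dvd).2 h2).symm
      have h4 : f.1 * T ≡ f.1 * T' [MOD p ^ 2] := Nat.ModEq.add_right_cancel' _ h3
      exact Nat.ModEq.cancel_left_of_coprime hcop h4
  let B : Finset ℕ := F.biUnion (fun f => (Ioc (4 * F.card) R).biUnion (fun p => bad f p))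
  have hBcard : (B.card : ℝ) < X := by
    have h1 : (B.card : ℝ) ≤ ∑ f ∈ F, ∑ p ∈ Ioc (4 * F.card) R, ((X / p ^ 2 + 1 : ℕ) : ℝ) := by
      have h2 : B.card ≤ ∑ f ∈ F, ∑ p ∈ Ioc (4 * F.card) R, (X / p ^ 2 + 1) := by
        refine card_biUnion_le.trans (sum_le_sum ?_)
        intro f hf
        refine card_biUnion_le.trans (sum_le_sum ?_)
        intro p hp'
        exact hbad f hf p hp'
      exact_mod_cast h2
    have h3 : (∑ f ∈ F, ∑ p ∈ Ioc (4 * F.card) R, ((X / p ^ 2 + 1 : ℕ) : ℝ)) ≤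
        (F.card : ℝ) * ((X : ℝ) / ((4 * F.card : ℕ) : ℝ) + R) := by
      refine (sum_le_sum (fun f _ => sqf_sum (4 * F.card) R X (by omega))).trans (le_of_eq ?_)
      rw [sum_const, nsmul_eq_mul]
    have hn' : (0 : ℝ) < F.card := by exact_mod_cast hn
    have h4 : (F.card : ℝ) * ((X : ℝ) / ((4 * F.card : ℕ) : ℝ) + R) = X / 4 + F.card * R := by
      push_cast
      field_simp
    have h5 : (2 : ℝ) * (F.card * R) < X := by exact_mod_cast hR2
    have h6 : (0 : ℝ) ≤ X := by positivity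
    have h7 : (0 : ℝ) ≤ (F.card : ℝ) * R := by positivity
    rw [h4] at h3
    have h8 := h1.trans h3
    linarith
  have hBX : B.card < (Ioc T0 (T0 + X)).card := by
    rw [Nat.card_Ioc]
    have h1 : B.card < X := by exact_mod_cast hBcard
    omega
  obtain ⟨T, hT, hTB⟩ := exists_mem_notMem_of_card_lt_card hBX
  rw [mem_Ioc] at hT
  refine ⟨T, by omega, ?_⟩
  intro f hf
  rw [Nat.squarefree_iff_prime_squarefree]
  intro p hpp hdiv
  apply hTB
  have hdiv' : p ^ 2 ∣ f.1 * T + f.2 := by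
    rw [pow_two]
    exact hdiv
  have hpd : p ∣ f.1 * T + f.2 := (dvd_pow_self p (by norm_num)).trans hdiv'
  refine mem_biUnion.2 ⟨f, hf, mem_biUnion.2 ⟨p, ?_, ?_⟩⟩
  · rw [mem_Ioc]
    constructor
    · by_contra hcon
      have hd := hp p hpp (by omega) f hf
      have h4 : p ∣ f.2 := (Nat.dvd_add_right (hd.mul_right T)).1 hpd
      have h5 := Nat.dvd_gcd hd h4
      rw [(hF f hf).2] at h5
      exact hpp.one_lt.ne' (Nat.dvd_one.1 h5)
    · rw [hR, Nat.le_sqrt]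
      have hpos : 0 < f.1 * T + f.2 := by
        have h1 : 0 < f.1 * T := Nat.mul_pos (hF f hf).1 (by omega)
        omega
      refine (Nat.le_of_dvd hpos hdiv).trans ?_
      have h1 : f.1 * T ≤ M * (T0 + X) := Nat.mul_le_mul (hM f hf).1 hT.2
      have h2 := (hM f hf).2
      calc f.1 * T + f.2 ≤ M * (T0 + X) + M := by omega
        _ = M * (T0 + X + 1) := by ring
  · exact mem_filter.2 ⟨mem_Ioc.2 hT, hpp, hdiv'⟩

end Pool.Agent.Lib.EV
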