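import Pool.Agent.Lib.MP_092512_nt.EV.Defs

/-!
# Even sums, module Sup: super-increasing steps
-/

set_option autoImplicit false

open Finset

namespace Pool.Agent.Lib.EV

theorem sg_le {m : ℕ} (e : ℕ → ℕ) {S : Finset ℕ} (hS : S ⊆ range m) : sg e S ≤ sg e (range m) := by
  unfold sg
  exact sum_le_sum_of_subset hS

theorem sg_inj_aux (e : ℕ → ℕ) : ∀ (m : ℕ), (∀ r < m, ∑ s ∈ range r, e s < e r) → ∀ S S' : Finset ℕ,
    S ⊆ range m → S' ⊆ range m → sg e S = sg e S' → S = S' := by
  intro m
  induction m with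
  | zero =>
    intro _ S S' hS hS' _
    rw [range_zero, subset_empty] at hS hS'
    rw [hS, hS']
  | succ n ih =>
    intro hsu S S' hS hS' he
    have hlt := hsu n (Nat.lt_succ_self n)
    have key : ∀ U V : Finset ℕ, U ⊆ range (n + 1) → V ⊆ range (n + 1) → sg e U = sg e V → n ∈ U → n ∈ V := by
      intro U V hU hV h hn
      by_contra hnV
      have h1 : V ⊆ range n := by
        intro x hx
        have hx1 := mem_range.1 (hV hx)
        have hx2 : x ≠ n := fun hh => hnV (hh ▸ hx)
        exact mem_range.2 (by omega)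
      have h2 : sg e V ≤ sg e (range n) := sg_le e h1
      have h3 : e n ≤ sg e U := by
        unfold sg
        exact single_le_sum (f := e) (fun _ _ => Nat.zero_le _) hn
      unfold sg at h2 h3 h
      omega
    by_cases hn : n ∈ S
    · have hn' := key S S' hS hS' he hn
      have e1 : sg e (S.erase n) = sg e (S'.erase n) := by
        have h1 := add_sum_erase S e hn
        have h2 := add_sum_erase S' e hn'
        unfold sg at he ⊢
        omega
      have hsub : ∀ U : Finset ℕ, U ⊆ range (n + 1) → U.erase n ⊆ range n := by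
        intro U hU x hx
        have hx1 := mem_range.1 (hU (mem_of_mem_erase hx))
        have hx2 := ne_of_mem_erase hx
        exact mem_range.2 (by omega)
      have h3 := ih (fun r hr => hsu r (by omega)) _ _ (hsub S hS) (hsub S' hS') e1
      rw [← insert_erase hn, ← insert_erase hn', h3]
    · have hn' : n ∉ S' := fun h => hn (key S' S hS' hS he.symm h)
      have hsub : ∀ U : Finset ℕ, U ⊆ range (n + 1) → n ∉ U → U ⊆ range n := by
        intro U hU hnU x hx
        have hx1 := mem_range.1 (hU hx)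
        have hx2 : x ≠ n := fun hh => hnU (hh ▸ hx)
        exact mem_range.2 (by omega)
      exact ih (fun r hr => hsu r (by omega)) _ _ (hsub S hS hn) (hsub S' hS' hn') he

theorem sg_inj {m : ℕ} {d e : ℕ → ℕ} {L : ℕ} (h : Dir m d e L) {S S' : Finset ℕ} (hS : S ⊆ range m) (hS' : S' ⊆ range m)
    (hne : S ≠ S') : sg e S ≠ sg e S' :=
  fun he => hne (sg_inj_aux e m h.su S S' hS hS' he)

theorem sg_pos {m : ℕ} {d e : ℕ → ℕ} {L : ℕ} (h : Dir m d e L) {S : Finset ℕ} (hS : S ⊆ range m) (hne : S.Nonempty) : 0 < sg e S := by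
  unfold sg
  exact sum_pos (fun x hx => h.e0 x (mem_range.1 (hS hx))) hne

theorem sum_wt : ∀ r : ℕ, ∑ s ∈ range (r + 1), wt s = wt (r + 1)
  | 0 => by simp [wt]
  | r + 1 => by
    rw [sum_range_succ, sum_wt r]
    simp only [wt]
    rw [pow_succ]
    omega

theorem wt_pos (r : ℕ) : 0 < wt r := by
  cases r with
  | zero => simp [wt]
  | succ n => simp [wt]

/-- the directions for a given set of differences: sort `D` decreasingly, `L = ∏ D`, `e r = wt r * L / d r` -/
theorem exists_dir (D : Finset ℕ) (h0 : ∀ x ∈ D, 0 < x) (hne : D.Nonempty) :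
    ∃ (d e : ℕ → ℕ) (L : ℕ), Dir D.card d e L ∧ Set.InjOn d (range D.card : Finset ℕ) ∧ (range D.card).image d = D := by
  classical
  set k := D.card with hk
  have hk1 : 1 ≤ k := card_pos.2 hne
  set f := D.orderEmbOfFin hk.symm with hf
  set d : ℕ → ℕ := fun r => if h : r < k then f (Fin.rev ⟨r, h⟩) else 0 with hd
  have hdr : ∀ r (h : r < k), d r = f (Fin.rev ⟨r, h⟩) := fun r h => by simp [hd, h]
  have hmem : ∀ r, r < k → d r ∈ D := fun r h => by
    rw [hdr r h]; exact orderEmbOfFin_mem D hk.symm _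
  have hanti : ∀ s r, s < r → r < k → d r < d s := by
    intro s r hsr hr
    rw [hdr r hr, hdr s (by omega)]
    apply f.strictMono
    rw [Fin.rev_lt_rev]
    exact hsr
  set L := ∏ x ∈ D, x with hL
  have hL0 : 0 < L := prod_pos h0
  have hdvd : ∀ r, r < k → d r ∣ L := fun r h => dvd_prod_of_mem (fun x => x) (hmem r h)
  have hd0 : ∀ r, r < k → 0 < d r := fun r h => h0 _ (hmem r h)
  have hq0 : ∀ r, r < k → 0 < L / d r := fun r h => Nat.div_pos (Nat.le_of_dvd hL0 (hdvd r h)) (hd0 r h)
  have hqlt : ∀ s r, s < r → r < k → L / d s < L / d r := by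
    intro s r hsr hr
    have h1 := Nat.div_mul_cancel (hdvd s (by omega))
    have h2 := Nat.div_mul_cancel (hdvd r hr)
    have h3 := hanti s r hsr hr
    by_contra hcon
    push Not at hcon
    have h4 : L / d r * d r < L / d s * d s :=
      lt_of_le_of_lt (Nat.mul_le_mul_right _ hcon) ((Nat.mul_lt_mul_left (hq0 s (by omega))).2 h3)
    omega
  refine ⟨d, fun r => wt r * (L / d r), L, ⟨hk1, hL0, hd0, ?_, ?_, ?_⟩, ?_, ?_⟩
  · intro r hr
    rw [mul_assoc, Nat.div_mul_cancel (hdvd r hr)]
  · intro r hr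
    exact Nat.mul_pos (wt_pos r) (hq0 r hr)
  · intro r hr
    cases r with
    | zero =>
      rw [range_zero, sum_empty]
      exact Nat.mul_pos (wt_pos 0) (hq0 0 hr)
    | succ n =>
      calc ∑ s ∈ range (n + 1), wt s * (L / d s) < ∑ s ∈ range (n + 1), wt s * (L / d (n + 1)) := by
            apply sum_lt_sum_of_nonempty ⟨0, mem_range.2 (Nat.succ_pos n)⟩
            intro s hs
            exact (Nat.mul_lt_mul_left (wt_pos s)).2 (hqlt s (n + 1) (mem_range.1 hs) hr)
        _ = wt (n + 1) * (L / d (n + 1)) := by rw [← sum_mul, sum_wt]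
  · intro x hx y hy hxy
    have hx' := mem_range.1 (mem_coe.1 hx)
    have hy' := mem_range.1 (mem_coe.1 hy)
    by_contra hne'
    rcases Nat.lt_or_gt_of_ne hne' with h | h
    · have := hanti x y h hy'
      omega
    · have := hanti y x h hx'
      omega
  · ext x
    rw [mem_image]
    constructor
    · rintro ⟨r, hr, rfl⟩
      exact hmem r (mem_range.1 hr)
    · intro hx
      have h1 : x ∈ Set.range f := by
        rw [hf, range_orderEmbOfFin]
        exact hx
      obtain ⟨i, hi⟩ := h1
      refine ⟨(Fin.rev i).val, mem_range.2 (Fin.rev i).2, ?_⟩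
      rw [hdr _ (Fin.rev i).2]
      rw [← hi]
      congr 1
      exact Fin.rev_rev i

end Pool.Agent.Lib.EV
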