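import Pool.Agent.Lib.MP_092512_nt.EV.Col
import Pool.Agent.Lib.MP_092512_nt.EV.Sq
import Pool.Agent.Lib.MP_092512_nt.EV.Sup

/-!
# Even sums, module Ch: the choice of the two steps

`W` := `R !`, `R = w + H + 2 σ + L + 2 ^ (m + 4)`, `σ = sg e (range m)`. All multipliers are `≡ 1` modulo `W`.
1. `gA = W T` with `T ≥ H + 1` and all `1 + W T sg S` (`∅ ≠ S ⊆ range m`) squarefree: `sqf` with the forms `(W sg S, 1)`.
2. `M_S := 2 ^ (m-1) gA sg S + 2 ^ (m-1) - jj S > 0`. `cF := 1 + gA σ` (the full multiplier of cube `A`).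
   `Z` := `W * ∏_{S not full} c_S * ∏ (primes p ∣ ∏_S M_S, p ∤ cF)`; `Z` is coprime to `cF`. `gB0 ≡ 0 (Z)`, `gB0 ≡ -gA (cF)` (Chinese remainder).
   `gB = gB0 + Z cF T` with `T` large and all `1 + gB sg S` squarefree: `sqf` with the forms `(Z cF sg S, 1 + gB0 sg S)`.
3. coprimality: inside a cube: differences of the `sg`. `A`, `B`: `p ∣ 1 + gA sg S`, `p ∣ 1 + gB sg S'`: if `S ≠ full`: `p ∣ Z ∣ gB`: contradiction;
   if `S = full`: `p ∣ σ + sg S'`.
4. `un`: see the proof.
-/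

set_option autoImplicit false

open Finset

namespace Pool.Agent.Lib.EV

theorem ch_one_add {p g s : ℕ} (hp : p.Prime) (h : p ∣ 1 + g * s) : ¬ p ∣ g := fun h1 =>
  hp.one_lt.ne' (Nat.dvd_one.1 ((Nat.dvd_add_left (dvd_mul_of_dvd_left h1 s)).1 h))

theorem ch_small {p g R x : ℕ} (hp : p.Prime) (hg : ¬ p ∣ g) (hR : ∀ q : ℕ, q.Prime → q ≤ R → q ∣ g) (x0 : 0 < x) (xR : x ≤ R) : ¬ p ∣ x :=
  fun h => hg (hR p hp ((Nat.le_of_dvd x0 h).trans xR))

theorem ch_in {p g s s' R : ℕ} (hp : p.Prime) (hR : ∀ q : ℕ, q.Prime → q ≤ R → q ∣ g) (h : p ∣ 1 + g * s) (h' : p ∣ 1 + g * s')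
    (hs : s ≤ R) (hs' : s' ≤ R) : s = s' := by
  by_contra hne
  wlog hlt : s < s' generalizing s s'
  · exact this h' h hs' hs (Ne.symm hne) (by omega)
  have hg := ch_one_add hp h
  have h1 : p ∣ g * (s' - s) := by
    have h2 := Nat.dvd_sub h' h
    have h3 : 1 + g * s' - (1 + g * s) = g * (s' - s) := by
      rw [Nat.mul_sub]
      omega
    rwa [h3] at h2
  rcases hp.dvd_mul.1 h1 with h2 | h2
  · exact hg h2
  · exact ch_small hp hg hR (by omega) (by omega) h2

theorem ch_cross {p gA gB σ s R : ℕ} (hp : p.Prime) (hR : ∀ q : ℕ, q.Prime → q ≤ R → q ∣ gA) (h : p ∣ 1 + gA * σ) (hAB : p ∣ gB + gA)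
    (h' : p ∣ 1 + gB * s) (hσ : 0 < σ) (hs : σ + s ≤ R) : False := by
  have h1 : (p : ℤ) ∣ ((σ + s : ℕ) : ℤ) := by
    have e : ((σ + s : ℕ) : ℤ) = σ * ((1 + gB * s : ℕ) : ℤ) - σ * s * ((gB + gA : ℕ) : ℤ) + s * ((1 + gA * σ : ℕ) : ℤ) := by
      push_cast
      ring
    rw [e]
    exact dvd_add (dvd_sub (dvd_mul_of_dvd_right (Int.natCast_dvd_natCast.2 h') _) (dvd_mul_of_dvd_right (Int.natCast_dvd_natCast.2 hAB) _))
      (dvd_mul_of_dvd_right (Int.natCast_dvd_natCast.2 h) _)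
  exact ch_small hp (ch_one_add hp h) hR (by omega) hs (Int.natCast_dvd_natCast.1 h1)

theorem ch_card {m : ℕ} (f : Finset ℕ → ℕ × ℕ) : 4 * (((range m).powerset.erase ∅).image f).card ≤ 2 ^ (m + 2) := by
  have h1 : (((range m).powerset.erase ∅).image f).card ≤ 2 ^ m := by
    refine card_image_le.trans ((card_le_card (erase_subset _ _)).trans ?_)
    rw [card_powerset, card_range]
  have h2 : 2 ^ (m + 2) = 4 * 2 ^ m := by ring
  omega

theorem ch_A {m : ℕ} {d e : ℕ → ℕ} {L : ℕ} (h : Dir m d e L) (R H : ℕ) (hR : 2 ^ (m + 2) ≤ R) :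
    ∃ gA, H < gA ∧ (∀ q : ℕ, q.Prime → q ≤ R → q ∣ gA) ∧ ∀ S ⊆ range m, Squarefree (1 + gA * sg e S) := by
  obtain ⟨T, hT, hsq⟩ := sqf (((range m).powerset.erase ∅).image fun S => (R.factorial * sg e S, 1)) (by
    intro f hf
    obtain ⟨S, hS, rfl⟩ := mem_image.1 hf
    rw [mem_erase, mem_powerset] at hS
    exact ⟨Nat.mul_pos (Nat.factorial_pos R) (sg_pos h hS.2 (nonempty_iff_ne_empty.2 hS.1)), Nat.coprime_one_right _⟩) (by
    intro p hp hle f hf
    obtain ⟨S, hS, rfl⟩ := mem_image.1 hf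
    exact dvd_mul_of_dvd_left (Nat.dvd_factorial hp.pos (hle.trans ((ch_card _).trans hR))) _) (H + 1)
  refine ⟨R.factorial * T, ?_, fun q hq hle => dvd_mul_of_dvd_left (Nat.dvd_factorial hq.pos hle) _, fun S hS => ?_⟩
  · have := Nat.le_mul_of_pos_left T (Nat.factorial_pos R)
    omega
  · rcases S.eq_empty_or_nonempty with rfl | hne
    · simp [sg]
    · have := hsq _ (mem_image.2 ⟨S, mem_erase.2 ⟨hne.ne_empty, mem_powerset.2 hS⟩, rfl⟩)
      have e : 1 + R.factorial * T * sg e S = R.factorial * sg e S * T + 1 := by ring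
      rw [e]
      exact this

theorem ch_B {m : ℕ} {d e : ℕ → ℕ} {L : ℕ} (h : Dir m d e L) (R B Z gA : ℕ) (hR : 2 ^ (m + 2) ≤ R) (hR' : 2 * sg e (range m) ≤ R)
    (hA : ∀ q : ℕ, q.Prime → q ≤ R → q ∣ gA) (hZ : ∀ q : ℕ, q.Prime → q ≤ R → q ∣ Z) (hZ0 : 0 < Z)
    (hco : Z.Coprime (1 + gA * sg e (range m))) :
    ∃ gB, B < gB ∧ Z ∣ gB ∧ 1 + gA * sg e (range m) ∣ gB + gA ∧ ∀ S ⊆ range m, Squarefree (1 + gB * sg e S) := by
  set cF := 1 + gA * sg e (range m) with hcF
  have hσ : 0 < sg e (range m) := sg_pos h (Subset.refl _) (nonempty_range_iff.2 (by have := h.m1; omega))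
  have hcF0 : 0 < cF := by omega
  obtain ⟨g0, hg1, hg2⟩ := Nat.chineseRemainder hco 0 ((cF - 1) * gA)
  have hg1' : Z ∣ g0 := (Nat.modEq_zero_iff_dvd).1 hg1
  have hg2' : cF ∣ g0 + gA := by
    have h1 : g0 + gA ≡ (cF - 1) * gA + gA [MOD cF] := Nat.ModEq.add_right _ hg2
    have h2 : (cF - 1) * gA + gA = cF * gA := by
      obtain ⟨c, hc⟩ : ∃ c, cF = c + 1 := ⟨cF - 1, by omega⟩
      rw [hc, Nat.add_sub_cancel]
      ring
    rw [h2] at h1
    exact (Nat.modEq_zero_iff_dvd).1 (h1.trans ((Nat.modEq_zero_iff_dvd).2 (dvd_mul_right _ _)))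
  obtain ⟨T, hT, hsq⟩ := sqf (((range m).powerset.erase ∅).image fun S => (Z * cF * sg e S, 1 + g0 * sg e S)) (by
    intro f hf
    obtain ⟨S, hS, rfl⟩ := mem_image.1 hf
    rw [mem_erase, mem_powerset] at hS
    refine ⟨Nat.mul_pos (Nat.mul_pos hZ0 hcF0) (sg_pos h hS.2 (nonempty_iff_ne_empty.2 hS.1)), ?_⟩
    refine Nat.Coprime.symm (Nat.coprime_of_dvd fun p hp h1 h2 => ?_)
    have hg0 : ¬ p ∣ g0 := ch_one_add hp h1
    rcases hp.dvd_mul.1 h2 with h3 | h3
    · rcases hp.dvd_mul.1 h3 with h4 | h4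
      · exact hg0 (h4.trans hg1')
      · have := sg_le e hS.2
        exact ch_cross hp hA h4 (h4.trans hg2') h1 hσ (by omega)
    · exact ch_one_add (s := g0) hp (by rwa [mul_comm g0] at h1) h3) (by
    intro p hp hle f hf
    obtain ⟨S, hS, rfl⟩ := mem_image.1 hf
    exact dvd_mul_of_dvd_left (dvd_mul_of_dvd_left (hZ p hp (hle.trans ((ch_card _).trans hR))) _) _) (B + 1)
  refine ⟨g0 + Z * cF * T, ?_, dvd_add hg1' (by rw [mul_assoc]; exact dvd_mul_right _ _), ?_, fun S hS => ?_⟩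
  · have := Nat.le_mul_of_pos_left T (Nat.mul_pos hZ0 hcF0)
    omega
  · have e : g0 + Z * cF * T + gA = (g0 + gA) + cF * (Z * T) := by ring
    rw [e]
    exact dvd_add hg2' (dvd_mul_right _ _)
  · rcases S.eq_empty_or_nonempty with rfl | hne
    · simp [sg]
    · have := hsq _ (mem_image.2 ⟨S, mem_erase.2 ⟨hne.ne_empty, mem_powerset.2 hS⟩, rfl⟩)
      have e : 1 + (g0 + Z * cF * T) * sg e S = Z * cF * sg e S * T + (1 + g0 * sg e S) := by ring
      rw [e]
      exact this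

theorem ch_uuA (m L gA gB : ℕ) (S : Finset ℕ) : uu m L gA gB (false, S) = -(gA * L * jj S : ℤ) := by simp [uu]

theorem ch_uuB (m L gA gB : ℕ) (S : Finset ℕ) : uu m L gA gB (true, S) = - dl m L gA gB - gB * L * jj S := by simp [uu]

/-- the number `M_S` -/
def chM (m : ℕ) (e : ℕ → ℕ) (gA : ℕ) (S : Finset ℕ) : ℕ := 2 ^ (m - 1) * gA * sg e S + (2 ^ (m - 1) - jj S)

/-- the primes of `∏ M_S` which do not divide the full multiplier -/
def chP (m : ℕ) (e : ℕ → ℕ) (gA : ℕ) : Finset ℕ :=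
  (∏ S ∈ (range m).powerset.erase ∅, chM m e gA S).primeFactors.filter fun p => ¬ p ∣ 1 + gA * sg e (range m)

theorem exists_cho {m : ℕ} {d e : ℕ → ℕ} {L : ℕ} (h : Dir m d e L) (w H : ℕ) : ∃ gA gB : ℕ, Cho m e L w H gA gB := by
  have hm := h.m1
  set σ := sg e (range m) with hσd
  have hσ : 0 < σ := sg_pos h (Subset.refl _) (nonempty_range_iff.2 (by omega))
  set R := w + H + 2 * σ + L + 2 ^ (m + 4) with hR
  have hpow1 : 2 ^ (m + 2) ≤ 2 ^ (m + 4) := Nat.pow_le_pow_right (by norm_num) (by omega)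
  have hpow2 : 2 ^ (m - 1) ≤ 2 ^ (m + 4) := Nat.pow_le_pow_right (by norm_num) (by omega)
  have hpow3 : 2 ≤ 2 ^ (m + 4) := by
    calc 2 = 2 ^ 1 := by norm_num
      _ ≤ 2 ^ (m + 4) := Nat.pow_le_pow_right (by norm_num) (by omega)
  obtain ⟨gA, hAH, hA, hAsq⟩ := ch_A h R H (by omega)
  have hA0 : 0 < gA := by omega
  have hleR : ∀ S ⊆ range m, sg e S ≤ R := fun S hS => by
    have := sg_le e hS
    omega
  have hfull : range m ∈ (range m).powerset := mem_powerset.2 (Subset.refl _)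
  -- the modulus `Z`
  set Z := R.factorial * (∏ S ∈ (range m).powerset.erase (range m), (1 + gA * sg e S)) * ∏ p ∈ chP m e gA, p with hZd
  have hZR : ∀ q : ℕ, q.Prime → q ≤ R → q ∣ Z := fun q hq hle =>
    dvd_mul_of_dvd_left (dvd_mul_of_dvd_left (Nat.dvd_factorial hq.pos hle) _) _
  have hZS : ∀ S ⊆ range m, S ≠ range m → 1 + gA * sg e S ∣ Z := fun S hS hne =>
    dvd_mul_of_dvd_left (dvd_mul_of_dvd_right (dvd_prod_of_mem (fun S => 1 + gA * sg e S) (mem_erase.2 ⟨hne, mem_powerset.2 hS⟩)) _) _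
  have hZM : ∀ S ⊆ range m, S.Nonempty → ∀ p : ℕ, p.Prime → p ∣ chM m e gA S → ¬ p ∣ 1 + gA * σ → p ∣ Z := by
    intro S hS hne p hp hpM hpF
    refine dvd_mul_of_dvd_right (dvd_prod_of_mem (fun p => p) (mem_filter.2 ⟨Nat.mem_primeFactors.2 ⟨hp, ?_, ?_⟩, hpF⟩)) _
    · exact hpM.trans (dvd_prod_of_mem (chM m e gA) (mem_erase.2 ⟨hne.ne_empty, mem_powerset.2 hS⟩))
    · refine prod_ne_zero_iff.2 fun S' hS' => ?_
      rw [mem_erase, mem_powerset] at hS'
      have h1 : 0 < 2 ^ (m - 1) * gA * sg e S' :=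
        Nat.mul_pos (Nat.mul_pos (by positivity) hA0) (sg_pos h hS'.2 (nonempty_iff_ne_empty.2 hS'.1))
      unfold chM
      omega
  have hZ0 : 0 < Z := by
    refine Nat.mul_pos (Nat.mul_pos (Nat.factorial_pos R) (prod_pos fun S _ => by omega)) (prod_pos fun p hp => ?_)
    exact (Nat.mem_primeFactors.1 (mem_filter.1 hp).1).1.pos
  have hco : Z.Coprime (1 + gA * σ) := by
    refine Nat.Coprime.mul_left (Nat.Coprime.mul_left ?_ (Nat.Coprime.prod_left fun S hS => ?_)) (Nat.Coprime.prod_left fun p hp => ?_)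
    · refine Nat.coprime_of_dvd fun p hp h1 h2 => ?_
      exact ch_one_add hp h2 (hA p hp ((hp.dvd_factorial).1 h1))
    · rw [mem_erase, mem_powerset] at hS
      refine Nat.coprime_of_dvd fun p hp h1 h2 => ?_
      exact sg_inj h hS.2 (Subset.refl _) hS.1 (ch_in hp hA h1 h2 (hleR S hS.2) (hleR _ (Subset.refl _)))
    · rw [chP, mem_filter] at hp
      exact (Nat.Prime.coprime_iff_not_dvd (Nat.mem_primeFactors.1 hp.1).1).2 hp.2
  obtain ⟨gB, hBH, hBZ, hBF, hBsq⟩ := ch_B h R (2 ^ (m - 1) * L * gA + H) Z gA (by omega) (by omega) hA hZR hZ0 hco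
  have hB : ∀ q : ℕ, q.Prime → q ≤ R → q ∣ gB := fun q hq hle => (hZR q hq hle).trans hBZ
  -- the two cubes
  have hcross : ∀ S ⊆ range m, ∀ S' ⊆ range m, ∀ p : ℕ, p.Prime → p ∣ 1 + gA * sg e S → p ∣ 1 + gB * sg e S' → False := by
    intro S hS S' hS' p hp h1 h2
    by_cases hf : S = range m
    · subst hf
      have := sg_le e hS'
      exact ch_cross hp hA h1 (h1.trans hBF) h2 hσ (by omega)
    · exact ch_one_add hp h2 ((h1.trans (hZS S hS hf)).trans hBZ)
  refine ⟨gA, gB, ⟨hA0, hAH, hBH, fun p hp hle => hA p hp (by omega), fun p hp hle => hB p hp (by omega), ?_, ?_, ?_⟩⟩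
  · rintro ⟨b, S⟩ hv
    have hS : S ⊆ range m := mem_powerset.1 (mem_product.1 hv).2
    cases b
    · simpa [cc] using hAsq S hS
    · simpa [cc] using hBsq S hS
  · rintro ⟨b, S⟩ hv ⟨b', S'⟩ hv' hne
    have hS : S ⊆ range m := mem_powerset.1 (mem_product.1 hv).2
    have hS' : S' ⊆ range m := mem_powerset.1 (mem_product.1 hv').2
    refine Nat.coprime_of_dvd fun p hp h1 h2 => ?_
    cases b <;> cases b'
    · have hSS : S ≠ S' := fun hh => hne (by rw [hh])
      exact sg_inj h hS hS' hSS (ch_in hp hA (by simpa [cc] using h1) (by simpa [cc] using h2) (hleR S hS) (hleR S' hS'))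
    · exact hcross S hS S' hS' p hp (by simpa [cc] using h1) (by simpa [cc] using h2)
    · exact hcross S' hS' S hS p hp (by simpa [cc] using h2) (by simpa [cc] using h1)
    · have hSS : S ≠ S' := fun hh => hne (by rw [hh])
      exact sg_inj h hS hS' hSS (ch_in hp hB (by simpa [cc] using h1) (by simpa [cc] using h2) (hleR S hS) (hleR S' hS'))
  · rintro ⟨b, S⟩ hv p hp hpc
    have hS : S ⊆ range m := mem_powerset.1 (mem_product.1 hv).2
    have hpz : Prime (p : ℤ) := Nat.prime_iff_prime_int.1 hp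
    have hjle := jj_le hm hS
    cases b
    · have hpc' : p ∣ 1 + gA * sg e S := by simpa [cc] using hpc
      have hpA : ¬ p ∣ gA := ch_one_add hp hpc'
      have hpL : ¬ p ∣ L := ch_small hp hpA hA h.L0 (by omega)
      have hne : S.Nonempty := by
        rw [nonempty_iff_ne_empty]
        rintro rfl
        simp [sg] at hpc'
        exact hp.one_lt.ne' hpc'
      have hj0 := jj_pos hne
      have hpj : ¬ p ∣ jj S := ch_small hp hpA hA hj0 (by omega)
      have hpA' : ¬ (p : ℤ) ∣ gA := fun hh => hpA (Int.natCast_dvd_natCast.1 hh)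
      have hpL' : ¬ (p : ℤ) ∣ L := fun hh => hpL (Int.natCast_dvd_natCast.1 hh)
      have hpj' : ¬ (p : ℤ) ∣ jj S := fun hh => hpj (Int.natCast_dvd_natCast.1 hh)
      have hp2 : ¬ (p : ℤ) ∣ 2 ^ (m - 1) := fun hh => by
        have h2 : (p : ℤ) ∣ ((2 : ℕ) : ℤ) := by exact_mod_cast hpz.dvd_of_dvd_pow hh
        exact ch_small hp hpA hA (by norm_num) (by omega) (Int.natCast_dvd_natCast.1 h2)
      constructor
      · intro hh
        have hh' : (p : ℤ) ∣ gA * L * jj S := by simpa [uu] using hh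
        rcases hpz.dvd_or_dvd hh' with h1 | h1
        · rcases hpz.dvd_or_dvd h1 with h2 | h2
          · exact hpA' h2
          · exact hpL' h2
        · exact hpj' h1
      · intro hh
        by_cases hf : S = range m
        · subst hf
          rw [show uu m L gA gB (false, range m) + dl m L gA gB = -(2 ^ (m - 1) * L * gB : ℤ) by
            rw [ch_uuA, dl, jj_full m hm]
            push_cast
            ring] at hh
          rw [dvd_neg] at hh
          rcases hpz.dvd_or_dvd hh with h1 | h1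
          · rcases hpz.dvd_or_dvd h1 with h2 | h2
            · exact hp2 h2
            · exact hpL' h2
          · have h2 : p ∣ gB := Int.natCast_dvd_natCast.1 h1
            exact hpA ((Nat.dvd_add_right h2).1 (hpc'.trans hBF))
        · have hpB : (p : ℤ) ∣ gB := Int.natCast_dvd_natCast.2 ((hpc'.trans (hZS S hS hf)).trans hBZ)
          have hjlt := jj_lt hm hS hf
          have e1 : uu m L gA gB (false, S) + dl m L gA gB = L * gA * ((2 ^ (m - 1) - jj S : ℕ) : ℤ) - 2 ^ (m - 1) * L * gB := by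
            rw [Nat.cast_sub hjle, ch_uuA, dl]
            push_cast
            ring
          rw [e1] at hh
          have h1 : (p : ℤ) ∣ L * gA * ((2 ^ (m - 1) - jj S : ℕ) : ℤ) := by
            have := dvd_add hh (dvd_mul_of_dvd_right hpB (2 ^ (m - 1) * L : ℤ))
            rwa [sub_add_cancel] at this
          rcases hpz.dvd_or_dvd h1 with h2 | h2
          · rcases hpz.dvd_or_dvd h2 with h3 | h3
            · exact hpL' h3
            · exact hpA' h3
          · exact ch_small hp hpA hA (by omega) (by omega) (Int.natCast_dvd_natCast.1 h2)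
    · have hpc' : p ∣ 1 + gB * sg e S := by simpa [cc] using hpc
      have hpB : ¬ p ∣ gB := ch_one_add hp hpc'
      have hpL : ¬ p ∣ L := ch_small hp hpB hB h.L0 (by omega)
      have hne : S.Nonempty := by
        rw [nonempty_iff_ne_empty]
        rintro rfl
        simp [sg] at hpc'
        exact hp.one_lt.ne' hpc'
      have hj0 := jj_pos hne
      have hpj : ¬ p ∣ jj S := ch_small hp hpB hB hj0 (by omega)
      have hpB' : ¬ (p : ℤ) ∣ gB := fun hh => hpB (Int.natCast_dvd_natCast.1 hh)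
      have hpL' : ¬ (p : ℤ) ∣ L := fun hh => hpL (Int.natCast_dvd_natCast.1 hh)
      have hpj' : ¬ (p : ℤ) ∣ jj S := fun hh => hpj (Int.natCast_dvd_natCast.1 hh)
      constructor
      · intro hh
        have e1 : uu m L gA gB (true, S) = -(L * (2 ^ (m - 1) * ((gA : ℤ) - gB) + gB * jj S)) := by
          rw [ch_uuB, dl]
          ring
        rw [e1, dvd_neg] at hh
        rcases hpz.dvd_or_dvd hh with h1 | h1
        · exact hpL' h1
        · have e2 : ((chM m e gA S : ℕ) : ℤ) = sg e S * (2 ^ (m - 1) * ((gA : ℤ) - gB) + gB * jj S) +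
              ((1 + gB * sg e S : ℕ) : ℤ) * (2 ^ (m - 1) - jj S) := by
            unfold chM
            rw [Nat.cast_add, Nat.cast_sub hjle]
            push_cast
            ring
          have h2 : (p : ℤ) ∣ ((chM m e gA S : ℕ) : ℤ) := by
            rw [e2]
            exact dvd_add (dvd_mul_of_dvd_right h1 _) (dvd_mul_of_dvd_left (Int.natCast_dvd_natCast.2 hpc') _)
          have h3 : p ∣ chM m e gA S := Int.natCast_dvd_natCast.1 h2
          by_cases hF : p ∣ 1 + gA * σ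
          · exact hcross (range m) (Subset.refl _) S hS p hp hF hpc'
          · exact hpB ((hZM S hS hne p hp h3 hF).trans hBZ)
      · intro hh
        have e1 : uu m L gA gB (true, S) + dl m L gA gB = -(gB * L * jj S : ℤ) := by
          rw [ch_uuB]
          ring
        rw [e1, dvd_neg] at hh
        rcases hpz.dvd_or_dvd hh with h1 | h1
        · rcases hpz.dvd_or_dvd h1 with h2 | h2
          · exact hpB' h2
          · exact hpL' h2
        · exact hpj' h1

end Pool.Agent.Lib.EV
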