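import Pool.Agent.Lib.MP_092512_nt.EV.Defs

/-!
# Even sums, module Col: the Liouville function on the integers, the weights, the collapse

`col`: induction on `m` (`Finset.range_add_one`, `Finset.prod_powerset_insert`): the product for `m + 1` directions is `G a * G (a - τ wt m)` with
`G x = F x * F (x - τ 2 ^ (m - 1))` and `wt m = 2 ^ (m - 1)`, so the two inner factors cancel (`hF`).
-/

set_option autoImplicit false

open Finset

namespace Pool.Agent.Lib.EV

theorem lz_sq (x : ℤ) : lz x * lz x = 1 := by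
  unfold lz
  rw [← mul_pow]
  norm_num

theorem lz_mul {x y : ℤ} (hx : x ≠ 0) (hy : y ≠ 0) : lz (x * y) = lz x * lz y := by
  unfold lz
  rw [Int.natAbs_mul, ArithmeticFunction.cardFactors_mul (Int.natAbs_ne_zero.2 hx) (Int.natAbs_ne_zero.2 hy), pow_add]

theorem wt_pos (r : ℕ) : 0 < wt r := by
  cases r with
  | zero => exact Nat.one_pos
  | succ r => exact Nat.two_pow_pos r

theorem jj_full (m : ℕ) (hm : 1 ≤ m) : jj (range m) = 2 ^ (m - 1) := by
  unfold jj
  induction m, hm using Nat.le_induction with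
  | base => simp [wt]
  | succ m hm ih =>
    rw [sum_range_succ, ih]
    obtain ⟨n, rfl⟩ : ∃ n, m = n + 1 := ⟨m - 1, by omega⟩
    simp only [Nat.add_sub_cancel, wt]
    ring

theorem jj_lt {m : ℕ} (hm : 1 ≤ m) {S : Finset ℕ} (hS : S ⊆ range m) (h : S ≠ range m) : jj S < 2 ^ (m - 1) := by
  rw [← jj_full m hm]
  unfold jj
  have hss : S ⊂ range m := lt_of_le_of_ne hS h
  obtain ⟨x, hx, hxS⟩ := exists_of_ssubset hss
  exact sum_lt_sum_of_subset hS hx hxS (wt_pos x) fun _ _ _ => Nat.zero_le _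

theorem jj_le {m : ℕ} (hm : 1 ≤ m) {S : Finset ℕ} (hS : S ⊆ range m) : jj S ≤ 2 ^ (m - 1) := by
  rw [← jj_full m hm]
  exact sum_le_sum_of_subset hS

theorem jj_pos {S : Finset ℕ} (h : S.Nonempty) : 0 < jj S :=
  sum_pos (fun r _ => wt_pos r) h

theorem col (m : ℕ) (hm : 1 ≤ m) (F : ℤ → ℤ) (hF : ∀ x, F x * F x = 1) (a τ : ℤ) :
    ∏ S ∈ (range m).powerset, F (a - τ * jj S) = F a * F (a - τ * 2 ^ (m - 1)) := by
  induction m, hm using Nat.le_induction generalizing a with
  | base =>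
    rw [range_one, ← insert_empty_eq (0 : ℕ), prod_powerset_insert (notMem_empty 0)]
    simp [jj, wt]
  | succ m hm ih =>
    rw [range_add_one, prod_powerset_insert (by simp), ih]
    have h1 : ∏ S ∈ (range m).powerset, F (a - τ * jj (insert m S)) = ∏ S ∈ (range m).powerset, F ((a - τ * 2 ^ (m - 1)) - τ * jj S) := by
      refine prod_congr rfl fun S hS => ?_
      have hmS : m ∉ S := fun h => by
        have := mem_range.1 (mem_powerset.1 hS h)
        omega
      unfold jj
      rw [sum_insert hmS]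
      obtain ⟨n, rfl⟩ : ∃ n, m = n + 1 := ⟨m - 1, by omega⟩
      congr 1
      simp only [Nat.add_sub_cancel, wt]
      push_cast
      ring
    rw [h1, ih]
    have h2 : a - τ * 2 ^ (m - 1) - τ * 2 ^ (m - 1) = a - τ * 2 ^ (m + 1 - 1) := by
      obtain ⟨n, rfl⟩ : ∃ n, m = n + 1 := ⟨m - 1, by omega⟩
      simp only [Nat.add_sub_cancel]
      ring
    rw [h2]
    calc F a * F (a - τ * 2 ^ (m - 1)) * (F (a - τ * 2 ^ (m - 1)) * F (a - τ * 2 ^ (m + 1 - 1))) =
        F a * (F (a - τ * 2 ^ (m - 1)) * F (a - τ * 2 ^ (m - 1))) * F (a - τ * 2 ^ (m + 1 - 1)) := by ring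
      _ = F a * F (a - τ * 2 ^ (m + 1 - 1)) := by rw [hF, mul_one]

end Pool.Agent.Lib.EV
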