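import Pool.Agent.Lib.MP_092512_nt.EV.Col

/-!
# Even sums, module Cub: the product over one cube and over two cubes
-/

set_option autoImplicit false

open Finset

namespace Pool.Agent.Lib.EV

open ArithmeticFunction (cardFactors)

theorem sg_insert {e : ℕ → ℕ} {S : Finset ℕ} {r : ℕ} (h : r ∉ S) : sg e (insert r S) = e r + sg e S := by
  unfold sg
  rw [sum_insert h]

theorem jj_insert {S : Finset ℕ} {r : ℕ} (h : r ∉ S) : jj (insert r S) = wt r + jj S := by
  unfold jj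
  rw [sum_insert h]

/-- one direction -/
theorem dir_prod {m : ℕ} {d e : ℕ → ℕ} {L : ℕ} (h : Dir m d e L) (g : ℕ) (a : ℤ) (n : Finset ℕ → ℤ)
    (hn : ∀ S ⊆ range m, ((1 + g * sg e S : ℕ) : ℤ) * n S = a - g * L * jj S)
    (h0 : ∀ S ⊆ range m, n S ≠ 0 ∧ ∀ r < m, n S + d r ≠ 0) {r : ℕ} (hr : r < m) :
    ∏ S ∈ (range m).powerset, (lz ((1 + g * sg e S : ℕ) : ℤ) * lz (n S + d r)) = 1 := by
  have hrm : r ∈ range m := mem_range.2 hr
  have hmul : ∀ S ⊆ range m, lz ((1 + g * sg e S : ℕ) : ℤ) * lz (n S + d r) = lz (((1 + g * sg e S : ℕ) : ℤ) * (n S + d r)) := by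
    intro S hS
    rw [lz_mul _ ((h0 S hS).2 r hr)]
    exact_mod_cast Nat.succ_ne_zero _ ∘ fun h => by rw [add_comm] at h; exact h
  rw [← insert_erase hrm, prod_powerset_insert (notMem_erase r _), ← prod_mul_distrib]
  refine prod_eq_one fun S hS => ?_
  have hS' : S ⊆ (range m).erase r := mem_powerset.mp hS
  have hSI : S ⊆ range m := hS'.trans (erase_subset _ _)
  have hrS : r ∉ S := fun h1 => notMem_erase r _ (hS' h1)
  have hrI : insert r S ⊆ range m := insert_subset hrm hSI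
  rw [hmul S hSI, hmul _ hrI]
  have h1 := hn S hSI
  have h2 := hn _ hrI
  have h3 : ((1 + g * sg e (insert r S) : ℕ) : ℤ) * (n (insert r S) + d r) = ((1 + g * sg e S : ℕ) : ℤ) * (n S + d r) := by
    rw [mul_add, mul_add, h1, h2, jj_insert hrS, sg_insert hrS]
    have h4 : (e r : ℤ) * d r = wt r * L := by exact_mod_cast h.ed r hr
    push_cast
    linear_combination (g : ℤ) * h4
  rw [h3]
  exact lz_sq _

theorem cube_prod {m : ℕ} {d e : ℕ → ℕ} {L : ℕ} (h : Dir m d e L) (hodd : Odd m) (g : ℕ) (a : ℤ) (n : Finset ℕ → ℤ)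
    (hn : ∀ S ⊆ range m, ((1 + g * sg e S : ℕ) : ℤ) * n S = a - g * L * jj S)
    (h0 : ∀ S ⊆ range m, n S ≠ 0 ∧ ∀ r < m, n S + d r ≠ 0) :
    ∏ S ∈ (range m).powerset, (lz (n S) * ∏ r ∈ range m, lz (n S + d r)) = lz a * lz (a - g * L * 2 ^ (m - 1)) := by
  have hc0 : ∀ S : Finset ℕ, ((1 + g * sg e S : ℕ) : ℤ) ≠ 0 := fun S => by
    have : (0 : ℤ) < ((1 + g * sg e S : ℕ) : ℤ) := by exact_mod_cast (by omega : 0 < 1 + g * sg e S)
    exact this.ne'
  obtain ⟨P, hP⟩ : ∃ P : ℤ, P = ∏ S ∈ (range m).powerset, lz ((1 + g * sg e S : ℕ) : ℤ) := ⟨_, rfl⟩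
  have hP2 : P * P = 1 := by
    rw [hP, ← prod_mul_distrib]
    exact prod_eq_one fun S _ => lz_sq _
  have h1 : ∏ S ∈ (range m).powerset, (lz ((1 + g * sg e S : ℕ) : ℤ) * lz (n S)) = lz a * lz (a - g * L * 2 ^ (m - 1)) := by
    rw [← col m h.m1 lz lz_sq a (g * L)]
    refine prod_congr rfl fun S hS => ?_
    rw [← lz_mul (hc0 S) (h0 S (mem_powerset.1 hS)).1, hn S (mem_powerset.1 hS)]
  have h2 : ∏ r ∈ range m, ∏ S ∈ (range m).powerset, (lz ((1 + g * sg e S : ℕ) : ℤ) * lz (n S + d r)) = 1 :=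
    prod_eq_one fun r hr => dir_prod h g a n hn h0 (mem_range.1 hr)
  have h3 : ∏ r ∈ range m, ∏ S ∈ (range m).powerset, (lz ((1 + g * sg e S : ℕ) : ℤ) * lz (n S + d r)) =
      P ^ m * ∏ S ∈ (range m).powerset, ∏ r ∈ range m, lz (n S + d r) := by
    simp_rw [prod_mul_distrib]
    rw [← hP, prod_const, card_range]
    congr 1
    exact prod_comm
  have h4 : P ^ m = P := by
    obtain ⟨t, ht⟩ := hodd
    rw [ht, pow_succ, pow_mul, pow_two, hP2, one_pow, one_mul]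
  rw [h3, h4] at h2
  rw [prod_mul_distrib, ← hP] at h1
  rw [prod_mul_distrib]
  calc (∏ S ∈ (range m).powerset, lz (n S)) * ∏ S ∈ (range m).powerset, ∏ r ∈ range m, lz (n S + d r) =
      (P * P) * (∏ S ∈ (range m).powerset, lz (n S)) * ∏ S ∈ (range m).powerset, ∏ r ∈ range m, lz (n S + d r) := by rw [hP2, one_mul]
    _ = (P * ∏ S ∈ (range m).powerset, lz (n S)) * (P * ∏ S ∈ (range m).powerset, ∏ r ∈ range m, lz (n S + d r)) := by ring
    _ = _ := by rw [h1, h2, mul_one]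

theorem two_prod {m : ℕ} {d e : ℕ → ℕ} {L : ℕ} (h : Dir m d e L) (hodd : Odd m) (gA gB : ℕ) (a : ℤ) (n : Bool × Finset ℕ → ℤ)
    (hn : ∀ v ∈ VV m, (cc e gA gB v : ℤ) * n v = a + uu m L gA gB v) (h0 : ∀ v ∈ VV m, n v ≠ 0 ∧ ∀ r < m, n v + d r ≠ 0) :
    ∏ v ∈ VV m, (lz (n v) * ∏ r ∈ range m, lz (n v + d r)) = lz a * lz (a - dl m L gA gB) := by
  have hV : ∀ b : Bool, ∀ S ⊆ range m, (b, S) ∈ VV m := fun b S hS => mem_product.2 ⟨mem_univ _, mem_powerset.2 hS⟩
  unfold VV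
  rw [prod_product, Fintype.prod_bool]
  have hA := cube_prod h hodd gA a (fun S => n (false, S)) (fun S hS => by
    have := hn (false, S) (hV false S hS)
    simp only [cc, uu, Bool.false_eq_true, if_false] at this
    rw [this]
    ring) fun S hS => h0 _ (hV false S hS)
  have hB := cube_prod h hodd gB (a - dl m L gA gB) (fun S => n (true, S)) (fun S hS => by
    have := hn (true, S) (hV true S hS)
    simp only [cc, uu, if_true] at this
    rw [this]
    ring) fun S hS => h0 _ (hV true S hS)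
  rw [hA, hB]
  have e1 : a - dl m L gA gB - gB * L * 2 ^ (m - 1) = a - gA * L * 2 ^ (m - 1) := by
    unfold dl
    ring
  rw [e1]
  have h5 := lz_sq (a - gA * L * 2 ^ (m - 1))
  calc lz (a - dl m L gA gB) * lz (a - gA * L * 2 ^ (m - 1)) * (lz a * lz (a - gA * L * 2 ^ (m - 1))) =
      (lz (a - gA * L * 2 ^ (m - 1)) * lz (a - gA * L * 2 ^ (m - 1))) * (lz a * lz (a - dl m L gA gB)) := by ring
    _ = _ := by rw [h5, one_mul]

/-- **both parities occur among the copies** -/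
theorem exists_par {m : ℕ} {d e : ℕ → ℕ} {L : ℕ} (h : Dir m d e L) (hodd : Odd m) (gA gB : ℕ) (a : ℤ) (n : Bool × Finset ℕ → ℤ)
    (hn : ∀ v ∈ VV m, (cc e gA gB v : ℤ) * n v = a + uu m L gA gB v) (h0 : ∀ v ∈ VV m, n v ≠ 0 ∧ ∀ r < m, n v + d r ≠ 0)
    (ha : lz a * lz (a - dl m L gA gB) = -1) (r : ℕ) (hr : r < 2) :
    ∃ v ∈ VV m, (cardFactors (n v).natAbs + ∑ r ∈ range m, cardFactors (n v + d r).natAbs) % 2 = r := by
  have h1 := two_prod h hodd gA gB a n hn h0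
  rw [ha] at h1
  by_contra hcon
  push Not at hcon
  have h2 : ∀ v ∈ VV m, lz (n v) * ∏ r ∈ range m, lz (n v + d r) = (-1) ^ (1 - r) := by
    intro v hv
    have h3 := hcon v hv
    have h4 : lz (n v) * ∏ r ∈ range m, lz (n v + d r) =
        (-1) ^ (cardFactors (n v).natAbs + ∑ r ∈ range m, cardFactors (n v + d r).natAbs) := by
      unfold lz
      rw [pow_add, prod_pow_eq_pow_sum]
    rw [h4]
    generalize cardFactors (n v).natAbs + ∑ r ∈ range m, cardFactors (n v + d r).natAbs = s at h3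
    have h5 : s = 2 * (s / 2) + (1 - r) := by omega
    rw [h5, pow_add, pow_mul]
    norm_num
  rw [prod_congr rfl h2, prod_const] at h1
  have h3 : (VV m).card = 2 * 2 ^ m := by
    unfold VV
    rw [card_product, card_powerset, card_range]
    simp
  rw [h3, pow_mul] at h1
  have h4 : (((-1 : ℤ) ^ (1 - r)) ^ 2) = 1 := by
    rw [← pow_mul, mul_comm, pow_mul]
    norm_num
  rw [h4, one_pow] at h1
  norm_num at h1

end Pool.Agent.Lib.EV
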