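import Mathlib

/-!
# Even sums: definitions (text /team-store/EV.md)

`m` directions `0, …, m - 1` with differences `d r` (decreasing), weights `wt r` (`1, 1, 2, 4, …`), steps `e r` with `e r * d r = wt r * L`.
Vertices `v = (b, S)`, `b = false`: cube `A`, `b = true`: cube `B`, `S ⊆ range m`.
-/

set_option autoImplicit false

open Finset

namespace Pool.Agent.Lib.EV

/-- the Liouville function on the integers (`1` at `0`) -/
def lz (x : ℤ) : ℤ := (-1) ^ (ArithmeticFunction.cardFactors x.natAbs)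

/-- the weights `1, 1, 2, 4, 8, …` -/
def wt : ℕ → ℕ
  | 0 => 1
  | (r + 1) => 2 ^ r

/-- `∑_{r ∈ S} wt r` -/
def jj (S : Finset ℕ) : ℕ := ∑ r ∈ S, wt r

/-- `∑_{r ∈ S} e r` -/
def sg (e : ℕ → ℕ) (S : Finset ℕ) : ℕ := ∑ r ∈ S, e r

/-- the multiplier of a vertex -/
def cc (e : ℕ → ℕ) (gA gB : ℕ) (v : Bool × Finset ℕ) : ℕ := 1 + (if v.1 then gB else gA) * sg e v.2

/-- the difference of the two surviving members -/
def dl (m L gA gB : ℕ) : ℤ := 2 ^ (m - 1) * L * ((gA : ℤ) - gB)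

/-- `a + uu v` is the value of the line of the base index through the vertex `v` -/
def uu (m L gA gB : ℕ) (v : Bool × Finset ℕ) : ℤ :=
  if v.1 then - dl m L gA gB - gB * L * jj v.2 else - (gA * L * jj v.2 : ℤ)

/-- the vertices -/
def VV (m : ℕ) : Finset (Bool × Finset ℕ) := univ ×ˢ (range m).powerset

/-- the directions: `e r * d r = wt r * L`, `d` decreasing and positive, `e` positive and super-increasing -/
structure Dir (m : ℕ) (d e : ℕ → ℕ) (L : ℕ) : Prop where
  m1 : 1 ≤ m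
  L0 : 0 < L
  d0 : ∀ r < m, 0 < d r
  ed : ∀ r < m, e r * d r = wt r * L
  e0 : ∀ r < m, 0 < e r
  su : ∀ r < m, ∑ s ∈ range r, e s < e r

/-- the choice of the two steps: all primes `≤ w` divide `gA` and `gB`, the multipliers are squarefree and pairwise coprime, both surviving members are
units modulo the primes of the multipliers; `H` is a bound for the shifts -/
structure Cho (m : ℕ) (e : ℕ → ℕ) (L w H gA gB : ℕ) : Prop where
  A0 : 0 < gA
  AH : H < gA
  BH : 2 ^ (m - 1) * L * gA + H < gB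
  Aw : ∀ p : ℕ, p.Prime → p ≤ w → p ∣ gA
  Bw : ∀ p : ℕ, p.Prime → p ≤ w → p ∣ gB
  sq : ∀ v ∈ VV m, Squarefree (cc e gA gB v)
  co : ∀ v ∈ VV m, ∀ v' ∈ VV m, v ≠ v' → (cc e gA gB v).Coprime (cc e gA gB v')
  un : ∀ v ∈ VV m, ∀ p : ℕ, p.Prime → p ∣ cc e gA gB v → ¬ (p : ℤ) ∣ uu m L gA gB v ∧ ¬ (p : ℤ) ∣ uu m L gA gB v + dl m L gA gB

end Pool.Agent.Lib.EV
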