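import Pool.Agent.Lib.MP_092512_nt.EV.Col

/-!
# Even sums, module Fa: the lines of the copies for one number `a`
-/

set_option autoImplicit false

open Finset

namespace Pool.Agent.Lib.EV

/-- `a + ln v l` is `cc v` times the member `l` of the copy `v` -/
def ln (m : ℕ) (e : ℕ → ℕ) (L gA gB : ℕ) {k : ℕ} (t : Fin k → ℕ) (i : Fin k) (y : (Bool × Finset ℕ) × Fin k) : ℤ :=
  uu m L gA gB y.1 + cc e gA gB y.1 * ((t y.2 : ℤ) - t i)

theorem cc_pos (e : ℕ → ℕ) (gA gB : ℕ) (v : Bool × Finset ℕ) : 0 < cc e gA gB v := by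
  unfold cc
  omega

theorem dvd_of_sq {n : ℕ} (hn : Squarefree n) {z : ℤ} (h : ∀ p : ℕ, p.Prime → p ∣ n → (p : ℤ) ∣ z) : (n : ℤ) ∣ z := by
  rw [Int.natCast_dvd, ← Nat.prod_primeFactors_of_squarefree hn]
  refine Finset.prod_primes_dvd _ (fun p hp => (Nat.prime_of_mem_primeFactors hp).prime) fun p hp => ?_
  rw [← Int.natCast_dvd]
  exact h p (Nat.prime_of_mem_primeFactors hp) (Nat.dvd_of_mem_primeFactors hp)

section

variable {m : ℕ} {e : ℕ → ℕ} {L w H gA gB : ℕ} {np : ℕ → ℕ} {p0 a : ℕ}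

theorem cc_dvd (hC : Cho m e L w H gA gB) (hp0 : ∀ v ∈ VV m, cc e gA gB v < p0)
    (hn2 : ∀ p : ℕ, p.Prime → ∀ v ∈ VV m, p ∣ cc e gA gB v → (p : ℤ) ∣ np p + uu m L gA gB v)
    (ha : ∀ p : ℕ, p.Prime → p < p0 → a ≡ np p [MOD p]) {v : Bool × Finset ℕ} (hv : v ∈ VV m) :
    (cc e gA gB v : ℤ) ∣ a + uu m L gA gB v := by
  refine dvd_of_sq (hC.sq v hv) fun p hp hpc => ?_
  have h1 : p < p0 := lt_of_le_of_lt (Nat.le_of_dvd (cc_pos _ _ _ _) hpc) (hp0 v hv)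
  have h2 := Nat.modEq_iff_dvd.1 (ha p hp h1)
  have h3 := hn2 p hp v hv hpc
  have h4 : (a : ℤ) + uu m L gA gB v = (np p + uu m L gA gB v) - ((np p : ℤ) - a) := by ring
  rw [h4]
  exact dvd_sub h3 h2

theorem small_dvd (hC : Cho m e L w H gA gB) {p : ℕ} (hp : p.Prime) (hpw : p ≤ w) (v : Bool × Finset ℕ) :
    (p : ℤ) ∣ uu m L gA gB v ∧ (p : ℤ) ∣ (cc e gA gB v : ℤ) - 1 := by
  have hA : (p : ℤ) ∣ gA := Int.natCast_dvd_natCast.2 (hC.Aw p hp hpw)
  have hB : (p : ℤ) ∣ gB := Int.natCast_dvd_natCast.2 (hC.Bw p hp hpw)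
  have hdl : (p : ℤ) ∣ dl m L gA gB := Dvd.dvd.mul_left (dvd_sub hA hB) _
  unfold uu cc
  split_ifs with h
  · refine ⟨dvd_sub ((dvd_neg).2 hdl) ?_, ?_⟩
    · exact Dvd.dvd.mul_right (Dvd.dvd.mul_right hB _) _
    · push_cast
      rw [add_sub_cancel_left]
      exact Dvd.dvd.mul_right hB _
  · refine ⟨(dvd_neg).2 ?_, ?_⟩
    · exact Dvd.dvd.mul_right (Dvd.dvd.mul_right hA _) _
    · push_cast
      rw [add_sub_cancel_left]
      exact Dvd.dvd.mul_right hA _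

theorem rough_w (hC : Cho m e L w H gA gB) {k : ℕ} (t : Fin k → ℕ) (i : Fin k) (hwp : w < p0)
    (hn3 : ∀ p : ℕ, p.Prime → p ≤ w → ∀ l, ¬ (p : ℤ) ∣ (np p : ℤ) + ((t l : ℤ) - t i))
    (ha : ∀ p : ℕ, p.Prime → p < p0 → a ≡ np p [MOD p]) {p : ℕ} (hp : p.Prime) (hpw : p ≤ w) (y : (Bool × Finset ℕ) × Fin k) :
    ¬ (p : ℤ) ∣ a + ln m e L gA gB t i y := by
  intro h
  obtain ⟨h1, h2⟩ := small_dvd hC hp hpw y.1
  have h3 := Nat.modEq_iff_dvd.1 (ha p hp (by omega))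
  refine hn3 p hp hpw y.2 ?_
  have h4 : (np p : ℤ) + ((t y.2 : ℤ) - t i) = (a + ln m e L gA gB t i y) + ((np p : ℤ) - a) - uu m L gA gB y.1 -
      ((cc e gA gB y.1 : ℤ) - 1) * ((t y.2 : ℤ) - t i) := by
    unfold ln
    ring
  rw [h4]
  exact dvd_sub (dvd_sub (dvd_add h h3) h1) (Dvd.dvd.mul_right h2 _)

theorem dl_neg (hC : Cho m e L w H gA gB) (hL : 0 < L) : dl m L gA gB < 0 := by
  have h1 := hC.BH
  have h2 : gA ≤ 2 ^ (m - 1) * L * gA := Nat.le_mul_of_pos_left _ (Nat.mul_pos (by positivity) hL)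
  have h3 : (gA : ℤ) < gB := by exact_mod_cast (by omega : gA < gB)
  unfold dl
  have h4 : (0 : ℤ) < 2 ^ (m - 1) * L := by
    have : (0 : ℤ) < L := by exact_mod_cast hL
    positivity
  nlinarith

/-- a line through a copy which is `0` belongs to the base index -/
theorem ln_zero (hC : Cho m e L w H gA gB) (hL : 0 < L) {k : ℕ} {t : Fin k → ℕ} (ht : Function.Injective t) {i : Fin k} (hH : ∀ l, t l ≤ H)
    {y : (Bool × Finset ℕ) × Fin k} (h : ln m e L gA gB t i y = 0) : y.2 = i := by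
  obtain ⟨⟨b, S⟩, l⟩ := y
  apply ht
  simp only
  have hl := hH l
  have hi := hH i
  have hA := hC.AH
  have hB := hC.BH
  have hA0 := hC.A0
  have hLA : gA ≤ L * gA := Nat.le_mul_of_pos_left _ hL
  have h2L : L * gA ≤ 2 ^ (m - 1) * (L * gA) := Nat.le_mul_of_pos_left _ (by positivity)
  have e2 : 2 ^ (m - 1) * L * gA = 2 ^ (m - 1) * (L * gA) := by ring
  have hD : ((t l : ℤ) - t i).natAbs ≤ H := by omega
  unfold ln uu cc at h
  cases b with
  | false =>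
    simp only [Bool.false_eq_true, if_false] at h
    have h1 : (gA : ℤ) ∣ (t l : ℤ) - t i := by
      refine ⟨L * jj S - sg e S * ((t l : ℤ) - t i), ?_⟩
      push_cast at h
      linear_combination h
    have h2 := Int.natAbs_dvd_natAbs.2 h1
    rw [Int.natAbs_natCast] at h2
    rcases Nat.eq_zero_or_pos ((t l : ℤ) - t i).natAbs with h3 | h3
    · omega
    · have := Nat.le_of_dvd h3 h2
      omega
  | true =>
    simp only [if_true] at h
    have h1 : (gB : ℤ) ∣ ((t l : ℤ) - t i) - 2 ^ (m - 1) * (L * gA) := by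
      refine ⟨- (2 ^ (m - 1) * L) + L * jj S - sg e S * ((t l : ℤ) - t i), ?_⟩
      unfold dl at h
      push_cast at h
      linear_combination h
    have h2 := Int.natAbs_dvd_natAbs.2 h1
    rw [Int.natAbs_natCast] at h2
    have h5 : (((t l : ℤ) - t i) - 2 ^ (m - 1) * (L * gA)).natAbs ≤ H + 2 ^ (m - 1) * (L * gA) := by
      have h6 := Int.natAbs_sub_le ((t l : ℤ) - t i) (2 ^ (m - 1) * (L * gA))
      have h7 : ((2 : ℤ) ^ (m - 1) * (L * gA)).natAbs = 2 ^ (m - 1) * (L * gA) := by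
        have h8 : (2 : ℤ) ^ (m - 1) * (L * gA) = ((2 ^ (m - 1) * (L * gA) : ℕ) : ℤ) := by push_cast; ring
        rw [h8, Int.natAbs_natCast]
      omega
    rcases Nat.eq_zero_or_pos (((t l : ℤ) - t i) - 2 ^ (m - 1) * (L * gA)).natAbs with h3 | h3
    · exfalso
      rw [Int.natAbs_eq_zero] at h3
      have h8 : (2 : ℤ) ^ (m - 1) * (L * gA) = ((2 ^ (m - 1) * (L * gA) : ℕ) : ℤ) := by push_cast; ring
      rw [h8] at h3
      omega
    · have := Nat.le_of_dvd h3 h2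
      omega

end

end Pool.Agent.Lib.EV
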