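import Mathlib

/-!
# Even sums, module Sm: the part of a number composed of small primes

`sm_split`: `b = ∏_{p ∈ n.primeFactors, P ≤ p} p ^ v_p(n)` (`Nat.prod_factorization_pow_eq_self`, split the product).
`sm_count`: put `y = x ^ (ε / P) ≥ 1`. If `sm P n > x ^ ε` then (at most `P` primes `< P`) some prime `p < P` has `p ^ v_p(n) > y`. Let `j(p)` be the least
exponent with `p ^ j(p) > y`: then `p ^ j(p) ∣ n = a + g`. The `a ∈ [1, x]` with `q ∣ a + g` are at most `x / q + 1` (one class modulo `q`), `q > y`. Sum over `p < P`: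
`≤ P (x / y + 1) ≤ 2 P x ^ (1 - ε / P)`, provided `ε / P ≤ 1`. (For `a + g = 0` the factorization is `0` and `sm = 1`.)
-/

set_option autoImplicit false

open Finset

namespace Pool.Agent.Lib.EV

/-- the part of `n` composed of primes `< P` -/
def sm (P n : ℕ) : ℕ := ∏ p ∈ (range P).filter Nat.Prime, p ^ n.factorization p

theorem dvd_prod_pow {s : Finset ℕ} (hs : ∀ q ∈ s, q.Prime) (n : ℕ) {p : ℕ} (hp : p.Prime)
    (h : p ∣ ∏ q ∈ s, q ^ n.factorization q) : p ∈ s ∧ p ∣ n := by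
  rw [Prime.dvd_finsetProd_iff hp.prime] at h
  obtain ⟨q, hq, hpq⟩ := h
  have hpq' : p = q := (Nat.prime_dvd_prime_iff_eq hp (hs q hq)).1 (hp.dvd_of_dvd_pow hpq)
  subst hpq'
  refine ⟨hq, ?_⟩
  have h0 : n.factorization p ≠ 0 := by
    intro h0
    rw [h0, pow_zero, Nat.dvd_one] at hpq
    exact hp.ne_one hpq
  exact Nat.dvd_of_factorization_pos h0

theorem sm_split (P n : ℕ) (hn : n ≠ 0) : ∃ b, n = sm P n * b ∧ (∀ p : ℕ, p.Prime → p ∣ sm P n → p < P ∧ p ∣ n) ∧
    ∀ p : ℕ, p.Prime → p ∣ b → P ≤ p ∧ p ∣ n := by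
  refine ⟨∏ p ∈ n.primeFactors.filter (fun p => ¬ p < P), p ^ n.factorization p, ?_, ?_, ?_⟩
  · have h1 : sm P n = ∏ p ∈ n.primeFactors.filter (fun p => p < P), p ^ n.factorization p := by
      unfold sm
      symm
      apply Finset.prod_subset
      · intro p hp
        rw [Finset.mem_filter] at hp ⊢
        exact ⟨Finset.mem_range.2 hp.2, Nat.prime_of_mem_primeFactors hp.1⟩
      · intro p hp hp'
        rw [Finset.mem_filter] at hp hp'
        have h0 : p ∉ n.primeFactors := fun h => hp' ⟨h, Finset.mem_range.1 hp.1⟩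
        rw [← Nat.support_factorization, Finsupp.notMem_support_iff] at h0
        rw [h0, pow_zero]
    rw [h1, Finset.prod_filter_mul_prod_filter_not]
    conv_lhs => rw [← Nat.prod_factorization_pow_eq_self hn]
    rfl
  · intro p hp hd
    have := dvd_prod_pow (s := (range P).filter Nat.Prime) (fun q hq => (Finset.mem_filter.1 hq).2) n hp hd
    exact ⟨Finset.mem_range.1 (Finset.mem_filter.1 this.1).1, this.2⟩
  · intro p hp hd
    have := dvd_prod_pow (s := n.primeFactors.filter (fun p => ¬ p < P))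
      (fun q hq => Nat.prime_of_mem_primeFactors (Finset.mem_filter.1 hq).1) n hp hd
    exact ⟨not_lt.1 (Finset.mem_filter.1 this.1).2, this.2⟩

theorem sm_le (P : ℕ) {n n' : ℕ} (h : n ∣ n') (hn' : n' ≠ 0) : sm P n ≤ sm P n' := by
  have hn : n ≠ 0 := fun h0 => hn' (by rw [h0] at h; exact Nat.eq_zero_of_zero_dvd h)
  unfold sm
  refine Finset.prod_le_prod' fun p hp => ?_
  exact Nat.pow_le_pow_right (Nat.Prime.pos (Finset.mem_filter.1 hp).2)
    ((Nat.factorization_le_iff_dvd hn hn').2 h p)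

theorem card_dvd_le (q : ℕ) (hq : 0 < q) (g : ℤ) (x : ℕ) :
    (((Icc 1 x).filter fun a : ℕ => (q : ℤ) ∣ (a : ℤ) + g).card : ℝ) ≤ (x : ℝ) / q + 1 := by
  have h1 : ((Icc 1 x).filter fun a : ℕ => (q : ℤ) ∣ (a : ℤ) + g).card
      ≤ ((Ioc (0 : ℤ) x).filter fun a : ℤ => a ≡ -g [ZMOD q]).card := by
    refine Finset.card_le_card_of_injOn (fun a => (a : ℤ)) ?_ ?_
    · intro a ha
      simp only [Finset.coe_filter, Set.mem_ofPred_eq, Finset.mem_Icc, Finset.mem_Ioc] at ha ⊢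
      refine ⟨⟨by omega, by omega⟩, ?_⟩
      rw [Int.modEq_comm, Int.modEq_iff_dvd]
      simpa using ha.2
    · intro a _ b _ hab
      simpa using hab
  have h2 := Int.Ioc_filter_modEq_card (0 : ℤ) (x : ℤ) (r := (q : ℤ)) (by exact_mod_cast hq) (-g)
  have hq' : (0 : ℚ) < (q : ℚ) := by exact_mod_cast hq
  set u : ℚ := (((x : ℤ) : ℚ) - ((-g : ℤ) : ℚ)) / ((q : ℤ) : ℚ) with hu
  set v : ℚ := (((0 : ℤ) : ℚ) - ((-g : ℤ) : ℚ)) / ((q : ℤ) : ℚ) with hv
  have h3 : u - v = (x : ℚ) / q := by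
    rw [hu, hv]
    push_cast
    ring
  have h4 : ((⌊u⌋ - ⌊v⌋ : ℤ) : ℚ) ≤ (x : ℚ) / q + 1 := by
    have a1 := Int.floor_le u
    have a2 := Int.lt_floor_add_one v
    push_cast
    linarith
  have h5 : (0 : ℚ) ≤ (x : ℚ) / q + 1 := by positivity
  have h6 : ((max (⌊u⌋ - ⌊v⌋) 0 : ℤ) : ℚ) ≤ (x : ℚ) / q + 1 := by
    rcases max_cases (⌊u⌋ - ⌊v⌋) 0 with h | h
    · rw [h.1]; exact h4
    · rw [h.1]; exact_mod_cast h5
  have h7 : ((((Ioc (0 : ℤ) x).filter fun a : ℤ => a ≡ -g [ZMOD q]).card : ℤ) : ℚ) ≤ (x : ℚ) / q + 1 := by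
    rw [h2]; exact h6
  have h8 : ((((Icc 1 x).filter fun a : ℕ => (q : ℤ) ∣ (a : ℤ) + g).card : ℕ) : ℚ) ≤ (x : ℚ) / q + 1 := by
    refine le_trans ?_ h7
    exact_mod_cast h1
  have h9 : (((((Icc 1 x).filter fun a : ℕ => (q : ℤ) ∣ (a : ℤ) + g).card : ℕ) : ℚ) : ℝ)
      ≤ (((x : ℚ) / q + 1 : ℚ) : ℝ) := by exact_mod_cast h8
  push_cast at h9
  exact h9

theorem exists_pow (p : ℕ) (hp : 2 ≤ p) (y : ℝ) : ∃ j : ℕ, y < (p : ℝ) ^ j ∧
    ∀ i : ℕ, y < (p : ℝ) ^ i → j ≤ i := by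
  classical
  have h : ∃ j : ℕ, y < (p : ℝ) ^ j :=
    pow_unbounded_of_one_lt y (by exact_mod_cast (by omega : 1 < p))
  exact ⟨Nat.find h, Nat.find_spec h, fun i hi => Nat.find_min' h hi⟩

theorem sm_count (P : ℕ) (hP : 1 ≤ P) (ε : ℝ) (hε : 0 < ε) (hε1 : ε ≤ 1) (g : ℤ) (x : ℕ) (hx : 1 ≤ x) :
    (((Icc 1 x).filter fun a : ℕ => (x : ℝ) ^ ε < sm P ((a : ℤ) + g).natAbs).card : ℝ) ≤ 2 * P * (x : ℝ) ^ (1 - ε / P) := by
  classical
  have hxr : (1 : ℝ) ≤ (x : ℝ) := by exact_mod_cast hx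
  have hx0 : (0 : ℝ) < (x : ℝ) := by linarith
  have hPr : (1 : ℝ) ≤ (P : ℝ) := by exact_mod_cast hP
  have hP0 : (0 : ℝ) < (P : ℝ) := by linarith
  set y : ℝ := (x : ℝ) ^ (ε / P) with hy
  have hy1 : 1 ≤ y := Real.one_le_rpow hxr (by positivity)
  have hy0 : 0 < y := by linarith
  have hyx : y ≤ x := by
    calc y ≤ (x : ℝ) ^ (1 : ℝ) := by
          apply Real.rpow_le_rpow_of_exponent_le hxr
          rw [div_le_one hP0]
          linarith
      _ = x := Real.rpow_one _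
  have hyP : y ^ P = (x : ℝ) ^ ε := by
    rw [hy, ← Real.rpow_natCast, ← Real.rpow_mul hx0.le]
    congr 1
    field_simp
  have hxy : (x : ℝ) ^ (1 - ε / P) = x / y := by
    rw [Real.rpow_sub hx0, Real.rpow_one, ← hy]
  choose! J hJ using fun (p : ℕ) (hp : 2 ≤ p) => exists_pow p hp y
  have hsub : ((Icc 1 x).filter fun a : ℕ => (x : ℝ) ^ ε < sm P ((a : ℤ) + g).natAbs)
      ⊆ ((range P).filter Nat.Prime).biUnion fun p =>
        (Icc 1 x).filter fun a : ℕ => ((p ^ J p : ℕ) : ℤ) ∣ (a : ℤ) + g := by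
    intro a ha
    rw [Finset.mem_filter] at ha
    obtain ⟨ha1, ha2⟩ := ha
    by_contra hcon
    rw [Finset.mem_biUnion] at hcon
    push Not at hcon
    have hall : ∀ p ∈ (range P).filter Nat.Prime,
        ((p ^ (((a : ℤ) + g).natAbs.factorization p) : ℕ) : ℝ) ≤ y := by
      intro p hp
      by_contra hlt
      push Not at hlt
      have hpp : p.Prime := (Finset.mem_filter.1 hp).2
      refine hcon p hp ?_
      rw [Finset.mem_filter]
      refine ⟨ha1, ?_⟩
      rw [← Int.dvd_natAbs]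
      norm_cast
      refine dvd_trans (pow_dvd_pow p ((hJ p hpp.two_le).2 _ ?_)) (Nat.ordProj_dvd _ p)
      push_cast at hlt
      exact hlt
    have hprod : ((sm P ((a : ℤ) + g).natAbs : ℕ) : ℝ) ≤ y ^ P := by
      unfold sm
      push_cast
      calc ∏ p ∈ (range P).filter Nat.Prime, (p : ℝ) ^ (((a : ℤ) + g).natAbs.factorization p)
          ≤ ∏ p ∈ (range P).filter Nat.Prime, y := by
            refine Finset.prod_le_prod (fun p _ => by positivity) fun p hp => ?_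
            have := hall p hp
            push_cast at this
            exact this
        _ = y ^ ((range P).filter Nat.Prime).card := by rw [Finset.prod_const]
        _ ≤ y ^ P := by
            apply pow_le_pow_right₀ hy1
            calc ((range P).filter Nat.Prime).card ≤ (range P).card := Finset.card_filter_le _ _
              _ = P := Finset.card_range P
    rw [hyP] at hprod
    linarith
  have hcard : (((Icc 1 x).filter fun a : ℕ => (x : ℝ) ^ ε < sm P ((a : ℤ) + g).natAbs).card : ℝ)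
      ≤ ∑ p ∈ (range P).filter Nat.Prime,
        (((Icc 1 x).filter fun a : ℕ => ((p ^ J p : ℕ) : ℤ) ∣ (a : ℤ) + g).card : ℝ) := by
    have h1 := le_trans (Finset.card_le_card hsub) Finset.card_biUnion_le
    exact_mod_cast h1
  have hterm : ∀ p ∈ (range P).filter Nat.Prime,
      (((Icc 1 x).filter fun a : ℕ => ((p ^ J p : ℕ) : ℤ) ∣ (a : ℤ) + g).card : ℝ) ≤ 2 * (x / y) := by
    intro p hp
    have hpp : p.Prime := (Finset.mem_filter.1 hp).2
    have hc := card_dvd_le (p ^ J p) (pow_pos hpp.pos _) g x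
    have hlt : y < ((p ^ J p : ℕ) : ℝ) := by
      push_cast
      exact (hJ p hpp.two_le).1
    have h1 : (x : ℝ) / ((p ^ J p : ℕ) : ℝ) ≤ x / y := div_le_div_of_nonneg_left hx0.le hy0 hlt.le
    have h2 : (1 : ℝ) ≤ x / y := by rw [le_div_iff₀ hy0]; linarith
    linarith
  calc (((Icc 1 x).filter fun a : ℕ => (x : ℝ) ^ ε < sm P ((a : ℤ) + g).natAbs).card : ℝ)
      ≤ ∑ p ∈ (range P).filter Nat.Prime,
        (((Icc 1 x).filter fun a : ℕ => ((p ^ J p : ℕ) : ℤ) ∣ (a : ℤ) + g).card : ℝ) := hcard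
    _ ≤ ∑ p ∈ (range P).filter Nat.Prime, 2 * (x / y) := Finset.sum_le_sum hterm
    _ = ((range P).filter Nat.Prime).card * (2 * (x / y)) := by rw [Finset.sum_const, nsmul_eq_mul]
    _ ≤ P * (2 * (x / y)) := by
        apply mul_le_mul_of_nonneg_right _ (by positivity)
        have : ((range P).filter Nat.Prime).card ≤ P :=
          calc ((range P).filter Nat.Prime).card ≤ (range P).card := Finset.card_filter_le _ _
            _ = P := Finset.card_range P
        exact_mod_cast this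
    _ = 2 * P * (x : ℝ) ^ (1 - ε / P) := by rw [hxy]; ring

end Pool.Agent.Lib.EV
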