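import Pool.Agent.Lib.MP_092512_nt.EV.Fa
import Pool.Agent.Lib.MP_092512_nt.EV.Sm
import Pool.Agent.Lib.MP_7b7e48_nt.TC.FinB

/-!
# Even sums, EV2, module Fb2: the members of one copy, classes modulo `p ^ 2`
-/

set_option autoImplicit false

open Finset

namespace Pool.Agent.Lib.EV

open ArithmeticFunction (cardFactors)

/-- what is claimed on the member `n`: it is `s b`, `s < C` composed of primes above `w`, `b` free of small primes -/
def Mem2 (w A C x : ℕ) (q : Prop) (n : ℕ) : Prop :=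
  ∃ s b : ℕ, n = s * b ∧ s < C ∧ (∀ p ∈ s.primeFactors, w < p) ∧ (∀ p ∈ b.primeFactors, Real.log x ^ A < p) ∧
    (q → (∀ p ∈ b.primeFactors, (x : ℝ) ^ (1 / (C : ℝ)) < p) ∧ cardFactors n < C)

/-- the product of the primes `< P` -/
def prP (P : ℕ) : ℕ := ∏ p ∈ (range P).filter Nat.Prime, p

theorem prod_le_sq {S : Finset ℕ} (hS : ∀ p ∈ S, p.Prime) (f : ℕ → ℕ) (hf : ∀ p ∈ S, f p ≤ 1) :
    ∏ p ∈ S, p ^ f p ≤ ∏ p ∈ S, p ∧ cardFactors (∏ p ∈ S, p ^ f p) ≤ S.card := by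
  classical
  constructor
  · refine prod_le_prod' fun p hp => ?_
    calc p ^ f p ≤ p ^ 1 := Nat.pow_le_pow_right (hS p hp).pos (hf p hp)
      _ = p := pow_one p
  · induction S using Finset.induction_on with
    | empty => simp
    | insert q S hq ih =>
      have hqp := hS q (mem_insert_self _ _)
      rw [prod_insert hq, card_insert_of_notMem hq, ArithmeticFunction.cardFactors_mul (pow_ne_zero _ hqp.ne_zero)
        (prod_ne_zero_iff.2 fun p hp => pow_ne_zero _ (hS p (mem_insert_of_mem hp)).ne_zero), ArithmeticFunction.cardFactors_pow,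
        ArithmeticFunction.cardFactors_apply_prime hqp, mul_one]
      have h1 := ih (fun p hp => hS p (mem_insert_of_mem hp)) (fun p hp => hf p (mem_insert_of_mem hp))
      have h2 := hf q (mem_insert_self _ _)
      omega

theorem sm_sq {P n : ℕ} (hn : n ≠ 0) (h : ∀ p : ℕ, p.Prime → p < P → ¬ p ^ 2 ∣ n) : sm P n ≤ prP P ∧ cardFactors (sm P n) ≤ P := by
  have h1 : ∀ p ∈ (range P).filter Nat.Prime, n.factorization p ≤ 1 := by
    intro p hp
    rw [mem_filter, mem_range] at hp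
    by_contra hcon
    refine h p hp.2 hp.1 ?_
    exact (hp.2.pow_dvd_iff_le_factorization hn).2 (by omega)
  obtain ⟨h2, h3⟩ := prod_le_sq (S := (range P).filter Nat.Prime) (fun p hp => (mem_filter.1 hp).2) (fun p => n.factorization p) h1
  refine ⟨h2, h3.trans ?_⟩
  calc ((range P).filter Nat.Prime).card ≤ (range P).card := card_filter_le _ _
    _ = P := card_range P

theorem mem_copy2 {m : ℕ} {e : ℕ → ℕ} {L gA gB : ℕ} {k : ℕ} {t : Fin k → ℕ} {i : Fin k} {w A C C' p0 a x : ℕ}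
    (hw : ∀ p : ℕ, p.Prime → p ≤ w → ∀ y, ¬ (p : ℤ) ∣ a + ln m e L gA gB t i y)
    (hsq : ∀ p : ℕ, p.Prime → p < p0 → ∀ y ∈ VV m ×ˢ (univ : Finset (Fin k)), ¬ ((p ^ 2 : ℕ) : ℤ) ∣ (a : ℤ) + ln m e L gA gB t i y)
    (hr : ∀ y ∈ VV m ×ˢ (univ : Finset (Fin k)), 0 < (a : ℤ) + ln m e L gA gB t i y ∧
      ∀ p : ℕ, p.Prime → p0 ≤ p → (p : ℤ) ∣ a + ln m e L gA gB t i y → Real.log x ^ A < p ∧ (y.2 ≠ i → (x : ℝ) ^ (1 / (C' : ℝ)) < p))
    (hC : prP p0 < C) (hC' : 0 < C') (hCC : p0 + 2 * C' ≤ C) (hx : 1 ≤ x) {v : Bool × Finset ℕ} (hv : v ∈ VV m) {n : ℕ}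
    (hn : (cc e gA gB v : ℤ) * ((n : ℤ) + t i) = a + uu m L gA gB v) (hn1 : 1 ≤ n) (l : Fin k) (hnx : n + t l < x ^ 2) :
    Mem2 w A C x (l ≠ i) (n + t l) := by
  have hy : (v, l) ∈ VV m ×ˢ (univ : Finset (Fin k)) := mem_product.2 ⟨hv, mem_univ l⟩
  have h1 : (cc e gA gB v : ℤ) * ((n + t l : ℕ) : ℤ) = a + ln m e L gA gB t i (v, l) := by
    unfold ln
    simp only
    push_cast
    linear_combination hn
  have hdz : ((n + t l : ℕ) : ℤ) ∣ a + ln m e L gA gB t i (v, l) := Dvd.intro_left _ h1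
  obtain ⟨r1, r2⟩ := hr _ hy
  have hn0 : n + t l ≠ 0 := by omega
  obtain ⟨b, hb, hs1, hb1⟩ := sm_split p0 (n + t l) hn0
  have hpd : ∀ p : ℕ, p ∣ n + t l → (p : ℤ) ∣ a + ln m e L gA gB t i (v, l) := fun p hp => (Int.natCast_dvd_natCast.2 hp).trans hdz
  obtain ⟨q1, q2⟩ := sm_sq (P := p0) hn0 (fun p hp hpp hd => hsq p hp hpp _ hy (hpd _ hd))
  have hx1 : (1 : ℝ) ≤ x := by exact_mod_cast hx
  have hCr : (0 : ℝ) < C' := by exact_mod_cast hC'
  have hb0 : b ≠ 0 := by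
    rintro rfl
    rw [mul_zero] at hb
    exact hn0 hb
  have hs0 : sm p0 (n + t l) ≠ 0 := by
    intro h0
    rw [h0, zero_mul] at hb
    exact hn0 hb
  refine ⟨sm p0 (n + t l), b, hb, lt_of_le_of_lt q1 hC, ?_, ?_, ?_⟩
  · intro p hp
    have hpp := Nat.prime_of_mem_primeFactors hp
    obtain ⟨a1, a2⟩ := hs1 p hpp (Nat.dvd_of_mem_primeFactors hp)
    by_contra hcon
    exact hw p hpp (not_lt.1 hcon) _ (hpd p a2)
  · intro p hp
    have hpp := Nat.prime_of_mem_primeFactors hp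
    obtain ⟨a1, a2⟩ := hb1 p hpp (Nat.dvd_of_mem_primeFactors hp)
    exact (r2 p hpp a1 (hpd p a2)).1
  · intro hl
    have hbp : ∀ p ∈ b.primeFactors, (x : ℝ) ^ (1 / (C' : ℝ)) < p := by
      intro p hp
      have hpp := Nat.prime_of_mem_primeFactors hp
      obtain ⟨a1, a2⟩ := hb1 p hpp (Nat.dvd_of_mem_primeFactors hp)
      exact (r2 p hpp a1 (hpd p a2)).2 hl
    refine ⟨fun p hp => lt_of_le_of_lt (Real.rpow_le_rpow_of_exponent_le hx1 ?_) (hbp p hp), ?_⟩
    · refine one_div_le_one_div_of_le hCr ?_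
      exact_mod_cast (by omega : C' ≤ C)
    · have h2 : cardFactors b < 2 * C' := by
        refine TC.finb_Omega (N := x ^ 2) (C := 2 * C') (Nat.pos_of_ne_zero hb0) ?_ (by omega) fun p hp =>
          lt_of_le_of_lt (le_of_eq ?_) (hbp p hp)
        · refine lt_of_le_of_lt (Nat.le_of_dvd (by omega) ?_) hnx
          exact Dvd.intro_left _ hb.symm
        · push_cast
          rw [← Real.rpow_natCast (x : ℝ) 2, ← Real.rpow_mul (by linarith)]
          congr 1
          push_cast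
          field_simp
      have h3 : cardFactors (n + t l) = cardFactors (sm p0 (n + t l)) + cardFactors b := by
        conv_lhs => rw [hb]
        exact ArithmeticFunction.cardFactors_mul hs0 hb0
      omega

end Pool.Agent.Lib.EV
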