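import Pool.Agent.Lib.MP_092512_nt.EV.Np
import Pool.Agent.Lib.MP_092512_nt.EV.Fa

/-!
# Even sums, EV2: classes modulo `p ^ 2` in which no line is divisible by `p ^ 2`
-/

set_option autoImplicit false

open Finset

namespace Pool.Agent.Lib.EV

/-- in the class of `n` modulo `p` there is a class modulo `p ^ 2` in which finitely many (less than `p`) translates are not divisible by `p ^ 2` -/
theorem exists_lift {p : ℕ} (hp : p.Prime) (n : ℕ) {ι : Type*} (F : Finset ι) (f : ι → ℤ) (hF : F.card < p) :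
    ∃ j : ℕ, ∀ y ∈ F, ¬ ((p ^ 2 : ℕ) : ℤ) ∣ ((n + p * j : ℕ) : ℤ) + f y := by
  by_contra hcon
  push Not at hcon
  choose y hy hyd using hcon
  obtain ⟨j, hj, j', hj', hjj, hyy⟩ := exists_ne_map_eq_of_card_lt_of_maps_to (s := range p) (t := F) (by rw [card_range]; exact hF) (fun j _ => hy j)
  rw [mem_range] at hj hj'
  have h1 := dvd_sub (hyd j) (hyd j')
  rw [hyy] at h1
  have h2 : (((n + p * j : ℕ) : ℤ) + f (y j')) - (((n + p * j' : ℕ) : ℤ) + f (y j')) = (p : ℤ) * ((j : ℤ) - j') := by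
    push_cast
    ring
  rw [h2] at h1
  push_cast at h1
  rw [pow_two] at h1
  have hp0 : (p : ℤ) ≠ 0 := by exact_mod_cast hp.ne_zero
  have h3 := Int.dvd_of_mul_dvd_mul_left hp0 h1
  have h4 := Int.eq_zero_of_abs_lt_dvd h3 (by rw [abs_lt]; constructor <;> omega)
  omega

theorem exists_np2 {m : ℕ} {d e : ℕ → ℕ} {L w H gA gB : ℕ} (hD : Dir m d e L) (h : Cho m e L w H gA gB) (hw : 2 ≤ w) {k : ℕ} (t : Fin k → ℕ)
    (i : Fin k) (had : ∀ p : ℕ, p.Prime → ∃ r : ℕ, ∀ l, ¬ p ∣ r + t l) (hwk : (VV m ×ˢ (univ : Finset (Fin k))).card ≤ w) :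
    ∃ np : ℕ → ℕ, (∀ p : ℕ, p.Prime → ¬ p ∣ np p ∧ ¬ (p : ℤ) ∣ np p - dl m L gA gB) ∧
      (∀ p : ℕ, p.Prime → ∀ v ∈ VV m, p ∣ cc e gA gB v → (p : ℤ) ∣ np p + uu m L gA gB v) ∧
      (∀ p : ℕ, p.Prime → p ≤ w → ∀ l, ¬ (p : ℤ) ∣ (np p : ℤ) + ((t l : ℤ) - t i)) ∧
      ∀ p : ℕ, p.Prime → w < p → ∀ y ∈ VV m ×ˢ (univ : Finset (Fin k)), ¬ ((p ^ 2 : ℕ) : ℤ) ∣ np p + ln m e L gA gB t i y := by
  obtain ⟨n0, h1, h2, h3⟩ := exists_np hD h hw t i had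
  have key : ∀ p : ℕ, ∃ j : ℕ, (p ≤ w → j = 0) ∧ (p.Prime → w < p → ∀ y ∈ VV m ×ˢ (univ : Finset (Fin k)),
      ¬ ((p ^ 2 : ℕ) : ℤ) ∣ ((n0 p + p * j : ℕ) : ℤ) + ln m e L gA gB t i y) := by
    intro p
    by_cases hpw : p ≤ w
    · exact ⟨0, fun _ => rfl, fun _ h' => absurd h' (by omega)⟩
    · by_cases hp : p.Prime
      · obtain ⟨j, hj⟩ := exists_lift hp (n0 p) (VV m ×ˢ (univ : Finset (Fin k))) (ln m e L gA gB t i) (by omega)
        exact ⟨j, fun h' => absurd h' hpw, fun _ _ => hj⟩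
      · exact ⟨0, fun _ => rfl, fun h' => absurd h' hp⟩
  choose j hj0 hj using key
  refine ⟨fun p => n0 p + p * j p, fun p hp => ⟨fun h' => ?_, fun h' => ?_⟩, fun p hp v hv hpv => ?_, fun p hp hpw l => ?_, fun p hp hpw y hy => hj p hp hpw y hy⟩
  · exact (h1 p hp).1 ((Nat.dvd_add_left (dvd_mul_right p (j p))).1 h')
  · refine (h1 p hp).2 ?_
    have e1 : (n0 p : ℤ) - dl m L gA gB = (((n0 p + p * j p : ℕ) : ℤ) - dl m L gA gB) - (p : ℤ) * (j p : ℤ) := by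
      push_cast
      ring
    rw [e1]
    exact dvd_sub h' (dvd_mul_right _ _)
  · have e1 : (((n0 p + p * j p : ℕ)) : ℤ) + uu m L gA gB v = ((n0 p : ℤ) + uu m L gA gB v) + (p : ℤ) * (j p : ℤ) := by
      push_cast
      ring
    simp only
    rw [e1]
    exact dvd_add (h2 p hp v hv hpv) (dvd_mul_right _ _)
  · simp only
    rw [hj0 p hpw, mul_zero, add_zero]
    exact h3 p hp hpw l

end Pool.Agent.Lib.EV
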