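import Pool.Agent.Lib.MP_092512_nt.EV.Cub
import Pool.Agent.Lib.MP_092512_nt.EV.Ch
import Pool.Agent.Lib.MP_092512_nt.EV.Np2
import Pool.Agent.Lib.MP_092512_nt.EV.Fb2
import Pool.Agent.Lib.MP_092512_nt.TT.A.Gd

/-!
# Even sums, EV2, module Fn2: the theorem
-/

set_option autoImplicit false

open Finset Filter

namespace Pool.Agent.Lib.EV

open ArithmeticFunction (cardFactors)
open Pool.Agent.Lib.TTA (PtT gset GCore)
open Pool.Agent.Lib.MP_45349e_nt.LS (lam)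

/-- the numerical facts for large `x` -/
theorem ev_num2 (A K : ℕ) {δ η c : ℝ} (hδ : 0 < δ) (hη : 0 < η) : ∀ᶠ x : ℕ in atTop,
    (x : ℝ) ≤ 3 * (x / 2 : ℕ) ∧ Real.log x ^ A ≤ Real.log (x / 2 : ℕ) ^ (A + 1) ∧ Real.log x ^ A ≤ ((x / 2 : ℕ) : ℝ) ^ δ ∧
    (x : ℝ) ^ (δ / 2) ≤ ((x / 2 : ℕ) : ℝ) ^ δ ∧ c ≤ ((x / 2 : ℕ) : ℝ) ^ η ∧ K ≤ x / 2 := by
  have hl : Tendsto (fun N : ℕ => Real.log (N : ℝ)) atTop atTop := Real.tendsto_log_atTop.comp tendsto_natCast_atTop_atTop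
  have h1 : ∀ᶠ x : ℕ in atTop, Real.log x ^ A ≤ (x : ℝ) ^ (δ / 2) := by
    have h := ((isLittleO_log_rpow_rpow_atTop (A : ℝ) (by positivity : 0 < δ / 2)).bound (zero_lt_one))
    filter_upwards [tendsto_natCast_atTop_atTop.eventually h, eventually_ge_atTop 1] with x hx hx1
    have hx1R : (1 : ℝ) ≤ x := by exact_mod_cast hx1
    rw [one_mul, Real.norm_of_nonneg (Real.rpow_nonneg (Real.log_nonneg hx1R) _),
      Real.norm_of_nonneg (Real.rpow_nonneg (by linarith) _), Real.rpow_natCast] at hx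
    exact hx
  have h2 := ((tendsto_rpow_atTop (by positivity : 0 < η / 2)).comp (tendsto_natCast_atTop_atTop (R := ℝ))).eventually_ge_atTop (max c 1)
  filter_upwards [h1, h2, hl.eventually_ge_atTop (2 * 2 ^ A), eventually_ge_atTop (max 9 (3 * K))] with x g1 g2 g3 g4
  rw [max_le_iff] at g4
  have hx3 : x ≤ 3 * (x / 2) := by omega
  have hx3r : (x : ℝ) ≤ 3 * (x / 2 : ℕ) := by exact_mod_cast hx3
  have hx9 : (9 : ℝ) ≤ x := by exact_mod_cast g4.1
  have hx0 : (0 : ℝ) < x := by linarith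
  have hy0 : (0 : ℝ) < (x / 2 : ℕ) := by linarith
  have hsq : (x : ℝ) ^ ((1 : ℝ) / 2) ≤ (x / 2 : ℕ) := by
    rw [← Real.sqrt_eq_rpow, Real.sqrt_le_left hy0.le]
    nlinarith
  have hpow : ∀ θ : ℝ, 0 ≤ θ → (x : ℝ) ^ (θ / 2) ≤ ((x / 2 : ℕ) : ℝ) ^ θ := by
    intro θ hθ
    calc (x : ℝ) ^ (θ / 2) = ((x : ℝ) ^ ((1 : ℝ) / 2)) ^ θ := by
          rw [← Real.rpow_mul hx0.le]
          congr 1
          ring
      _ ≤ _ := Real.rpow_le_rpow (Real.rpow_nonneg hx0.le _) hsq hθ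
  have hlog : Real.log x ≤ 2 * Real.log (x / 2 : ℕ) := by
    have h5 := Real.log_le_log (Real.rpow_pos_of_pos hx0 _) hsq
    rw [Real.log_rpow hx0] at h5
    linarith
  have hl0 : 0 ≤ Real.log x := Real.log_nonneg (by linarith)
  have hly : (2 : ℝ) ^ A ≤ Real.log (x / 2 : ℕ) := by linarith
  refine ⟨hx3r, ?_, g1.trans (hpow δ hδ.le), hpow δ hδ.le, ?_, by omega⟩
  · calc Real.log x ^ A ≤ (2 * Real.log (x / 2 : ℕ)) ^ A := pow_le_pow_left₀ hl0 hlog A
      _ = 2 ^ A * Real.log (x / 2 : ℕ) ^ A := mul_pow _ _ _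
      _ ≤ Real.log (x / 2 : ℕ) * Real.log (x / 2 : ℕ) ^ A := mul_le_mul_of_nonneg_right hly (pow_nonneg (by linarith) _)
      _ = _ := (pow_succ' _ _).symm
  · refine (le_max_left c 1).trans (le_trans ?_ (hpow η (by positivity)))
    exact g2

open Classical in
/-- **both parities of the sum over an even number of members** -/
theorem even_main2 (HG : GCore) (k : ℕ) (h : Fin k → ℕ) (hinj : Function.Injective h) (hadm : ∀ p : ℕ, p.Prime → ∃ r : ℕ, ∀ l, ¬ p ∣ r + h l)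
    (J : Finset (Fin k)) (hJ : Even J.card) (i : Fin k) (hi : i ∈ J) (hmin : ∀ j ∈ J, h i ≤ h j) (w A : ℕ) (ε : ℝ) (hε : 0 < ε) :
    ∃ C : ℕ, ∃ x₀ : ℕ, ∀ x : ℕ, x₀ ≤ x → ∀ r : ℕ, r < 2 →
    (x : ℝ) ^ (1 - ε) ≤ (((Icc 1 x).filter fun n => (∑ j ∈ J, cardFactors (n + h j)) % 2 = r ∧
      ∀ l, Mem2 w A C x (l ≠ i) (n + h l)).card : ℝ) := by
  classical
  obtain ⟨m, hm⟩ : ∃ m, m = (J.erase i).card := ⟨_, rfl⟩
  have hJm : J.card = m + 1 := by
    rw [hm, card_erase_of_mem hi]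
    have := card_pos.2 ⟨i, hi⟩
    omega
  have hodd : Odd m := by
    rcases Nat.even_or_odd m with h1 | h1
    · exfalso
      rw [hJm] at hJ
      exact (Nat.not_even_iff_odd.2 h1.add_one) hJ
    · exact h1
  have hm1 : 1 ≤ m := hodd.pos
  obtain ⟨D, hD⟩ : ∃ D : Finset ℕ, D = (J.erase i).image (fun j => h j - h i) := ⟨_, rfl⟩
  have hDi : Set.InjOn (fun j => h j - h i) (J.erase i) := by
    intro j hj j' hj' hjj
    have a1 := hmin j (mem_of_mem_erase hj)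
    have a2 := hmin j' (mem_of_mem_erase hj')
    apply hinj
    simp only at hjj
    omega
  have hDc : D.card = m := by rw [hD, card_image_of_injOn hDi, hm]
  have hD0 : ∀ x ∈ D, 0 < x := by
    intro x hx
    rw [hD, mem_image] at hx
    obtain ⟨j, hj, rfl⟩ := hx
    have a1 := hmin j (mem_of_mem_erase hj)
    have a2 : h j ≠ h i := fun h1 => ne_of_mem_erase hj (hinj h1)
    omega
  obtain ⟨d, e, L, hDir, hdi, hdD⟩ := exists_dir D hD0 (card_pos.1 (by omega))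
  rw [hDc] at hDir hdi hdD
  have hsum : ∀ n : ℕ, ∑ j ∈ J, cardFactors (n + h j) =
      cardFactors ((n : ℤ) + h i).natAbs + ∑ r ∈ range m, cardFactors ((n : ℤ) + h i + d r).natAbs := by
    intro n
    rw [← add_sum_erase J _ hi]
    have e1 : ((n : ℤ) + h i).natAbs = n + h i := by omega
    have e2 : ∑ r ∈ range m, cardFactors ((n : ℤ) + h i + d r).natAbs = ∑ x ∈ D, cardFactors ((n : ℤ) + h i + (x : ℕ)).natAbs := by
      rw [← hdD, sum_image hdi]
    rw [e1, e2, hD, sum_image hDi]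
    refine congrArg₂ _ rfl (sum_congr rfl fun j hj => ?_)
    have a1 := hmin j (mem_of_mem_erase hj)
    congr 1
    omega
  obtain ⟨w', hw'⟩ : ∃ w', w' = max w (max 2 (VV m ×ˢ (univ : Finset (Fin k))).card) := ⟨_, rfl⟩
  have hw'1 : w ≤ w' := by rw [hw']; exact le_max_left _ _
  have hw'2 : 2 ≤ w' := by rw [hw']; exact (le_max_left _ _).trans (le_max_right _ _)
  have hw'3 : (VV m ×ˢ (univ : Finset (Fin k))).card ≤ w' := by rw [hw']; exact (le_max_right _ _).trans (le_max_right _ _)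
  obtain ⟨H, hH⟩ : ∃ H : ℕ, ∀ l, h l ≤ H := ⟨∑ l, h l, fun l => single_le_sum (fun _ _ => Nat.zero_le _) (mem_univ l)⟩
  obtain ⟨gA, gB, hC⟩ := exists_cho hDir w' H
  obtain ⟨np, hn1, hn2, hn3, hn4⟩ := exists_np2 hDir hC hw'2 h i hadm hw'3
  have hdl := dl_neg hC hDir.L0
  obtain ⟨δh, hδh⟩ : ∃ δh, δh = dl m L gA gB := ⟨_, rfl⟩
  obtain ⟨lf, hlf⟩ : ∃ lf, lf = ln m e L gA gB h i := ⟨_, rfl⟩
  obtain ⟨VF, hVF⟩ : ∃ VF, VF = VV m ×ˢ (univ : Finset (Fin k)) := ⟨_, rfl⟩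
  obtain ⟨G, hG⟩ : ∃ G : Finset ℤ, G = (VF.image lf).filter (fun g => g ≠ 0 ∧ δh + g ≠ 0) := ⟨_, rfl⟩
  obtain ⟨P1, hP1⟩ : ∃ P1 : ℕ, P1 = w' + 1 + ∑ v ∈ VV m, cc e gA gB v := ⟨_, rfl⟩
  obtain ⟨p0, hp0, hg⟩ := HG δh (by rw [hδh]; exact hdl.ne) G (fun g hg => by rw [hG, mem_filter] at hg; exact hg.2) 2 (by norm_num) np
    (fun p hp => by rw [hδh]; exact hn1 p hp) P1 (A + 1)
  have hccp : ∀ v ∈ VV m, cc e gA gB v < p0 := by
    intro v hv
    have : cc e gA gB v ≤ ∑ v ∈ VV m, cc e gA gB v := single_le_sum (fun _ _ => Nat.zero_le _) hv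
    omega
  have hwp : w' < p0 := by omega
  have hp0r : (3 : ℝ) ≤ p0 := by exact_mod_cast (by omega : 3 ≤ p0)
  obtain ⟨ε1, hε1⟩ : ∃ ε1, ε1 = min ε 1 := ⟨_, rfl⟩
  have hε1p : 0 < ε1 := by rw [hε1]; exact lt_min hε one_pos
  have hε1a : ε1 ≤ ε := by rw [hε1]; exact min_le_left _ _
  have hε1b : ε1 ≤ 1 := by rw [hε1]; exact min_le_right _ _
  obtain ⟨η, hη⟩ : ∃ η, η = ε1 / 2 := ⟨_, rfl⟩
  have hη0 : 0 < η := by rw [hη]; positivity
  have h2η : 2 * η = ε1 := by rw [hη]; ring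
  obtain ⟨δ, hδ, x1, hx1⟩ := hg η hη0 (by linarith)
  -- the constants
  obtain ⟨Kc, hKc⟩ : ∃ Kc : ℕ, Kc = ∑ y ∈ VF, ((lf y).natAbs + cc e gA gB y.1 + (uu m L gA gB y.1).natAbs) + H + 1 := ⟨_, rfl⟩
  have hK : ∀ y ∈ VF, (lf y).natAbs ≤ Kc ∧ cc e gA gB y.1 ≤ Kc ∧ (uu m L gA gB y.1).natAbs ≤ Kc := by
    intro y hy
    have : (lf y).natAbs + cc e gA gB y.1 + (uu m L gA gB y.1).natAbs ≤
        ∑ y ∈ VF, ((lf y).natAbs + cc e gA gB y.1 + (uu m L gA gB y.1).natAbs) :=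
      single_le_sum (f := fun y => (lf y).natAbs + cc e gA gB y.1 + (uu m L gA gB y.1).natAbs) (fun _ _ => Nat.zero_le _) hy
    omega
  obtain ⟨K2, hK2⟩ : ∃ K2 : ℕ, K2 = Kc * (2 * Kc + 2) + Kc := ⟨_, rfl⟩
  obtain ⟨C', hC'⟩ := exists_nat_gt (2 / δ)
  have hC'0 : (0 : ℝ) < C' := lt_trans (by positivity) hC'
  have hC'n : 0 < C' := by exact_mod_cast hC'0
  obtain ⟨cV, hcV⟩ : ∃ cV : ℝ, cV = 3 * ((VV m).card : ℝ) + (K2 + 1 : ℝ) := ⟨_, rfl⟩
  obtain ⟨x2, hx2⟩ := eventually_atTop.1 (ev_num2 A (K2 + H + x1 + 2) (c := cV) hδ hη0)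
  refine ⟨prP p0 + (p0 + 2 * C') + 1, max x2 4, fun x hx r hr => ?_⟩
  rw [max_le_iff] at hx
  obtain ⟨g1, g2, g3, g4, g5, g6⟩ := hx2 x hx.1
  obtain ⟨y, hy⟩ : ∃ y : ℕ, y = x / 2 := ⟨_, rfl⟩
  rw [← hy] at g1 g2 g3 g4 g5 g6
  have hyx : 2 * y ≤ x := by omega
  have hy1 : (1 : ℝ) ≤ y := by exact_mod_cast (by omega : 1 ≤ y)
  have hx1r : (1 : ℝ) ≤ x := by exact_mod_cast (by omega : 1 ≤ x)
  have hyxr : (y : ℝ) ≤ x := by exact_mod_cast (by omega : y ≤ x)
  -- the set `T`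
  obtain ⟨T, hT⟩ : ∃ T : Finset ℕ, T = (Icc 1 x).filter fun n => (∑ j ∈ J, cardFactors (n + h j)) % 2 = r ∧
      ∀ l, Mem2 w A (prP p0 + (p0 + 2 * C') + 1) x (l ≠ i) (n + h l) := ⟨_, rfl⟩
  rw [← hT]
  obtain ⟨X, hX⟩ : ∃ X : Finset ℕ, X = gset δh G np 2 (A + 1) p0 δ 1 (-1) y := ⟨_, rfl⟩
  have hXc : (y : ℝ) ^ (1 - η) ≤ X.card := by
    rw [hX]
    exact hx1 y (by omega) 1 (-1) (Or.inl rfl) (Or.inr rfl)
  -- the good numbers
  obtain ⟨Y, hY⟩ : ∃ Y : Finset ℕ, Y = X.filter fun a => K2 < a := ⟨_, rfl⟩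
  have hXY : (X.card : ℝ) ≤ Y.card + (K2 + 1 : ℝ) := by
    have hsub : X ⊆ Y ∪ range (K2 + 1) := by
      intro a ha
      rw [mem_union, mem_range]
      by_cases ha2 : K2 < a
      · left
        rw [hY, mem_filter]
        exact ⟨ha, ha2⟩
      · right
        omega
    have h1 := card_le_card hsub
    have h4 := card_union_le Y (range (K2 + 1))
    rw [card_range] at h4
    exact_mod_cast h1.trans h4
  -- every good number has a copy in `T`
  have hcopy : ∀ a ∈ Y, ∃ v ∈ VV m, ∃ n ∈ T, (cc e gA gB v : ℤ) * ((n : ℤ) + h i) = a + uu m L gA gB v := by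
    intro a ha
    rw [hY, mem_filter] at ha
    obtain ⟨haX, haK⟩ := ha
    rw [hX] at haX
    unfold gset at haX
    rw [mem_filter, mem_Icc] at haX
    obtain ⟨⟨ha1, hay⟩, hpt, hra, ⟨hb0, hrb⟩, hrG, hcl2⟩ := haX
    have hcl : ∀ p : ℕ, p.Prime → p < p0 → a ≡ np p [MOD p] := fun p hp hpp => (hcl2 p hp hpp).of_dvd (dvd_pow_self p two_ne_zero)
    have hvi : ∀ v ∈ VV m, (v, i) ∈ VF := fun v hv => by rw [hVF]; exact mem_product.2 ⟨hv, mem_univ i⟩
    have hdv : ∀ v ∈ VV m, (cc e gA gB v : ℤ) ∣ a + uu m L gA gB v := fun v hv => cc_dvd hC hccp hn2 hcl hv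
    obtain ⟨nv, hnv⟩ : ∃ nv : Bool × Finset ℕ → ℤ, nv = fun v => ((a : ℤ) + uu m L gA gB v) / cc e gA gB v := ⟨_, rfl⟩
    have hnve : ∀ v ∈ VV m, (cc e gA gB v : ℤ) * nv v = a + uu m L gA gB v := fun v hv => by
      rw [hnv]
      exact Int.mul_ediv_cancel' (hdv v hv)
    have hnvp : ∀ v ∈ VV m, 2 * (Kc : ℤ) < nv v := by
      intro v hv
      obtain ⟨-, b2, b3⟩ := hK _ (hvi v hv)
      simp only at b2 b3
      by_contra hcon
      rw [not_lt] at hcon
      have c1 : (cc e gA gB v : ℤ) * nv v ≤ (cc e gA gB v : ℤ) * (2 * Kc) := mul_le_mul_of_nonneg_left hcon (Nat.cast_nonneg _)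
      have c2 : (cc e gA gB v : ℤ) * (2 * Kc) ≤ (Kc : ℤ) * (2 * Kc) := by
        refine mul_le_mul_of_nonneg_right ?_ (by positivity)
        exact_mod_cast b2
      rw [hnve v hv] at c1
      have c3 : (K2 : ℤ) < a := by exact_mod_cast haK
      rw [hK2] at c3
      push_cast at c3
      have c4 : -(Kc : ℤ) ≤ uu m L gA gB v := by omega
      nlinarith
    have hlz : lz a * lz (a - dl m L gA gB) = -1 := by
      obtain ⟨q1, q2⟩ := hpt
      have e1 : lz a = 1 := by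
        unfold lam at q1
        unfold lz
        rw [Int.natAbs_natCast]
        exact_mod_cast q1
      have e2 : lz (a - dl m L gA gB) = -1 := by
        unfold lam at q2
        unfold lz
        have e3 : ((a : ℤ) - dl m L gA gB).natAbs = ((a : ℤ) - δh).toNat := by
          rw [← hδh]
          omega
        rw [e3]
        exact_mod_cast q2
      rw [e1, e2, one_mul]
    obtain ⟨v, hv, hpar⟩ := exists_par hDir hodd gA gB a nv hnve (fun v hv => by
      have b1 := hnvp v hv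
      refine ⟨by omega, fun r _ => by omega⟩) hlz r hr
    have b1 := hnvp v hv
    have hHK : H + 1 ≤ Kc := by omega
    have hhi := hH i
    have hn0 : (((nv v - h i).toNat : ℕ) : ℤ) = nv v - h i := Int.toNat_of_nonneg (by omega)
    obtain ⟨n, hn⟩ : ∃ n : ℕ, n = (nv v - h i).toNat := ⟨_, rfl⟩
    rw [← hn] at hn0
    have hne : (cc e gA gB v : ℤ) * ((n : ℤ) + h i) = a + uu m L gA gB v := by
      rw [← hnve v hv, hn0]
      congr 1
      ring
    have hn1' : 1 ≤ n := by omega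
    have hnx : n ≤ x := by
      obtain ⟨-, -, b3⟩ := hK _ (hvi v hv)
      simp only at b3
      have c1 : nv v ≤ (cc e gA gB v : ℤ) * nv v := by
        refine le_mul_of_one_le_left (by omega) ?_
        exact_mod_cast cc_pos e gA gB v
      rw [hnve v hv] at c1
      have c2 : Kc ≤ K2 := by rw [hK2]; nlinarith
      omega
    refine ⟨v, hv, n, ?_, hne⟩
    rw [hT, mem_filter, mem_Icc]
    refine ⟨⟨hn1', hnx⟩, ?_, ?_⟩
    · rw [hsum n]
      have e1 : (n : ℤ) + h i = nv v := by rw [hn0]; ring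
      rw [e1]
      exact hpar
    · intro l
      refine mem_copy2 (C' := C') (p0 := p0) (a := a) (e := e) (m := m) (L := L) (gA := gA) (gB := gB) ?_ ?_ ?_ (by omega) hC'n (by omega) (by omega) hv hne hn1' l ?_
      · intro p hp hpw z
        exact rough_w hC h i hwp hn3 hcl hp (hpw.trans hw'1) z
      · intro p hp hpp z hz hd
        by_cases hpw : p ≤ w'
        · refine rough_w hC h i hwp hn3 hcl hp hpw z (dvd_trans ?_ hd)
          rw [Nat.cast_pow]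
          exact dvd_pow_self _ two_ne_zero
        · refine hn4 p hp (by omega) z hz ?_
          have c1 := Nat.modEq_iff_dvd.1 (hcl2 p hp hpp)
          have c2 : (np p : ℤ) + ln m e L gA gB h i z = ((np p : ℤ) - a) + ((a : ℤ) + ln m e L gA gB h i z) := by ring
          rw [c2]
          exact dvd_add c1 hd
      · intro z hz
        rw [← hVF] at hz
        have hbnd := (hK z hz).1
        have c2 : Kc ≤ K2 := by rw [hK2]; nlinarith
        have hpow : (x : ℝ) ^ (1 / (C' : ℝ)) ≤ (y : ℝ) ^ δ := by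
          refine le_trans (Real.rpow_le_rpow_of_exponent_le hx1r ?_) g4
          rw [div_le_iff₀ hC'0]
          rw [div_lt_iff₀ hδ] at hC'
          linarith
        rw [← hlf]
        refine ⟨by omega, fun p hp hpp hpd => ?_⟩
        by_cases hz0 : lf z = 0
        · have c3 : z.2 = i := ln_zero hC hDir.L0 hinj hH (y := z) (by rw [← hlf]; exact hz0)
          rw [hz0, add_zero] at hpd
          have c4 := hra p hp (Int.natCast_dvd_natCast.1 hpd)
          exact ⟨lt_of_le_of_lt g2 c4, fun c5 => absurd c3 c5⟩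
        · by_cases hz1 : δh + lf z = 0
          · have c3 : (a : ℤ) + lf z = a - δh := by linarith
            rw [c3] at hpd
            have c4 := hrb p hp hpd
            exact ⟨lt_of_le_of_lt g3 c4, fun _ => lt_of_le_of_lt hpow c4⟩
          · have c3 : lf z ∈ G := by
              rw [hG, mem_filter]
              exact ⟨mem_image_of_mem _ hz, hz0, hz1⟩
            have c4 := (hrG _ c3).2 p hp hpp hpd
            exact ⟨lt_of_le_of_lt g3 c4, fun _ => lt_of_le_of_lt hpow c4⟩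
      · have c1 := hH l
        have c2 : x + H < 2 * x := by omega
        have c3 : 2 * x ≤ x ^ 2 := by nlinarith [hx.2]
        omega
  -- counting
  have hYT : Y.card ≤ (VV m).card * T.card := by
    rw [← card_product]
    choose! v hv n hn hvn using hcopy
    refine card_le_card_of_injOn (fun a => (v a, n a)) (fun a ha => mem_product.2 ⟨hv a ha, hn a ha⟩) ?_
    intro a ha b hb hab
    rw [Prod.mk.injEq] at hab
    have c1 := hvn a ha
    have c2 := hvn b hb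
    rw [hab.1, hab.2] at c1
    have c3 : (a : ℤ) = b := by linarith
    exact_mod_cast c3
  have hYT' : (Y.card : ℝ) ≤ (VV m).card * T.card := by exact_mod_cast hYT
  have hV0 : (0 : ℝ) < (VV m).card := by
    have : (false, (∅ : Finset ℕ)) ∈ VV m := mem_product.2 ⟨mem_univ _, mem_powerset.2 (empty_subset _)⟩
    exact_mod_cast card_pos.2 ⟨_, this⟩
  obtain ⟨u, hu⟩ : ∃ u : ℝ, u = (y : ℝ) ^ (1 - ε1) := ⟨_, rfl⟩
  have hu1 : 1 ≤ u := by
    rw [hu]
    exact Real.one_le_rpow hy1 (by linarith)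
  have e1 : (y : ℝ) ^ (1 - η) = (y : ℝ) ^ η * u := by
    rw [hu, ← Real.rpow_add (by linarith)]
    congr 1
    linarith
  have e3 : (x : ℝ) ^ (1 - ε) ≤ 3 * u := by
    calc (x : ℝ) ^ (1 - ε) ≤ (x : ℝ) ^ (1 - ε1) := Real.rpow_le_rpow_of_exponent_le hx1r (by linarith)
      _ ≤ (3 * (y : ℝ)) ^ (1 - ε1) := Real.rpow_le_rpow (by linarith) g1 (by linarith)
      _ = 3 ^ (1 - ε1) * (y : ℝ) ^ (1 - ε1) := Real.mul_rpow (by norm_num) (by linarith)
      _ ≤ 3 ^ (1 : ℝ) * u := by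
          rw [hu]
          exact mul_le_mul_of_nonneg_right (Real.rpow_le_rpow_of_exponent_le (by norm_num) (by linarith)) (Real.rpow_nonneg (by linarith) _)
      _ = 3 * u := by rw [Real.rpow_one]
  rw [e1] at hXc
  have e4 : cV * u ≤ (y : ℝ) ^ η * u := mul_le_mul_of_nonneg_right g5 (by linarith)
  rw [hcV] at e4
  have e5 : (K2 + 1 : ℝ) ≤ (K2 + 1 : ℝ) * u := le_mul_of_one_le_right (by positivity) hu1
  have e6 : 3 * ((VV m).card : ℝ) * u ≤ (VV m).card * T.card := by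
    nlinarith
  have e7 : ((VV m).card : ℝ) * (3 * u) ≤ (VV m).card * T.card := by linarith
  exact e3.trans (le_of_mul_le_mul_left e7 hV0)

end Pool.Agent.Lib.EV
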