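import Pool.Agent.Lib.MP_092512_nt.EV.Defs

/-!
# Even sums, module Np: the prescribed classes

`np p` for a prime `p`: if `p ∣ cc v` for some `v ∈ VV m`: the natural number `((- uu v) % p).toNat` (`v` is unique by `co`, as `p ∣ 1` is impossible; units by `un`).
Otherwise, if `p ≤ w`: `r_p + t i` (`r_p` from the admissibility; `dl ≡ 0` modulo `p`, as `p ∣ gA, gB`; note that `p ∣ cc v` is impossible for `p ≤ w`).
Otherwise (`p > w ≥ 2`): `1` if `p ∤ 1 - dl`, else `2` (`p ∤ 2`, `p ∤ 2 - dl`).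
-/

set_option autoImplicit false

open Finset

namespace Pool.Agent.Lib.EV

theorem exists_np {m : ℕ} {d e : ℕ → ℕ} {L w H gA gB : ℕ} (hD : Dir m d e L) (h : Cho m e L w H gA gB) (hw : 2 ≤ w) {k : ℕ} (t : Fin k → ℕ)
    (i : Fin k) (had : ∀ p : ℕ, p.Prime → ∃ r : ℕ, ∀ l, ¬ p ∣ r + t l) :
    ∃ np : ℕ → ℕ, (∀ p : ℕ, p.Prime → ¬ p ∣ np p ∧ ¬ (p : ℤ) ∣ np p - dl m L gA gB) ∧
      (∀ p : ℕ, p.Prime → ∀ v ∈ VV m, p ∣ cc e gA gB v → (p : ℤ) ∣ np p + uu m L gA gB v) ∧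
      ∀ p : ℕ, p.Prime → p ≤ w → ∀ l, ¬ (p : ℤ) ∣ (np p : ℤ) + ((t l : ℤ) - t i) := by
  have key : ∀ p : ℕ, ∃ n : ℕ, p.Prime → (¬ p ∣ n ∧ ¬ (p : ℤ) ∣ n - dl m L gA gB) ∧
      (∀ v ∈ VV m, p ∣ cc e gA gB v → (p : ℤ) ∣ n + uu m L gA gB v) ∧
      (p ≤ w → ∀ l, ¬ (p : ℤ) ∣ (n : ℤ) + ((t l : ℤ) - t i)) := by
    intro p
    by_cases hp : p.Prime
    swap
    · exact ⟨0, fun h' => absurd h' hp⟩
    have hp0 : (0 : ℤ) < p := by exact_mod_cast hp.pos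
    have hp1 : ¬ p ∣ 1 := fun h' => hp.one_lt.ne' (Nat.dvd_one.1 h')
    have hcw : p ≤ w → ∀ v, ¬ p ∣ cc e gA gB v := by
      intro hpw v hv
      unfold cc at hv
      refine hp1 ((Nat.dvd_add_left ?_).1 hv)
      refine Dvd.dvd.mul_right ?_ _
      split_ifs
      · exact h.Bw p hp hpw
      · exact h.Aw p hp hpw
    by_cases hv : ∃ v ∈ VV m, p ∣ cc e gA gB v
    · obtain ⟨v, hv1, hv2⟩ := hv
      have hn : (((- uu m L gA gB v) % p).toNat : ℤ) = (- uu m L gA gB v) % p := Int.toNat_of_nonneg (Int.emod_nonneg _ hp0.ne')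
      have hd : (p : ℤ) ∣ (((- uu m L gA gB v) % p).toNat : ℤ) + uu m L gA gB v := by
        rw [hn, Int.emod_def]
        exact ⟨-(- uu m L gA gB v / p), by ring⟩
      obtain ⟨u1, u2⟩ := h.un v hv1 p hp hv2
      refine ⟨((- uu m L gA gB v) % p).toNat, fun _ => ⟨⟨fun h1 => u1 ?_, fun h1 => u2 ?_⟩, fun v' hv' hpv' => ?_, fun hpw => absurd hv2 (hcw hpw v)⟩⟩
      · exact (Int.dvd_add_right (Int.natCast_dvd_natCast.2 h1)).1 hd
      · have h2 := Int.dvd_sub hd h1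
        have h3 : (((- uu m L gA gB v) % p).toNat : ℤ) + uu m L gA gB v - ((((- uu m L gA gB v) % p).toNat : ℤ) - dl m L gA gB) =
            uu m L gA gB v + dl m L gA gB := by ring
        rwa [h3] at h2
      · by_cases hvv : v' = v
        · rw [hvv]
          exact hd
        · exfalso
          have h4 := Nat.dvd_gcd hpv' hv2
          rw [(h.co v' hv' v hv1 hvv)] at h4
          exact hp1 h4
    by_cases hpw : p ≤ w
    · obtain ⟨r, hr⟩ := had p hp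
      have hdl : (p : ℤ) ∣ dl m L gA gB := by
        unfold dl
        exact Dvd.dvd.mul_left (Int.dvd_sub (Int.natCast_dvd_natCast.2 (h.Aw p hp hpw)) (Int.natCast_dvd_natCast.2 (h.Bw p hp hpw))) _
      refine ⟨r + t i, fun _ => ⟨⟨hr i, fun h1 => hr i ?_⟩, fun v hv1 hv2 => absurd ⟨v, hv1, hv2⟩ hv, fun _ l h1 => hr l ?_⟩⟩
      · have h2 := Int.dvd_add h1 hdl
        rw [sub_add_cancel] at h2
        exact Int.natCast_dvd_natCast.1 h2
      · have h3 : ((r + t i : ℕ) : ℤ) + ((t l : ℤ) - t i) = ((r + t l : ℕ) : ℤ) := by push_cast; ring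
        rw [h3] at h1
        exact Int.natCast_dvd_natCast.1 h1
    · by_cases h1 : (p : ℤ) ∣ ((1 : ℕ) : ℤ) - dl m L gA gB
      · refine ⟨2, fun _ => ⟨⟨fun h2 => ?_, fun h2 => ?_⟩, fun v hv1 hv2 => absurd ⟨v, hv1, hv2⟩ hv, fun h' => absurd h' hpw⟩⟩
        · have := Nat.le_of_dvd two_pos h2
          omega
        · have h3 := Int.dvd_sub h2 h1
          have h4 : ((2 : ℕ) : ℤ) - dl m L gA gB - (((1 : ℕ) : ℤ) - dl m L gA gB) = ((1 : ℕ) : ℤ) := by push_cast; ring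
          rw [h4] at h3
          exact hp1 (Int.natCast_dvd_natCast.1 h3)
      · exact ⟨1, fun _ => ⟨⟨hp1, h1⟩, fun v hv1 hv2 => absurd ⟨v, hv1, hv2⟩ hv, fun h' => absurd h' hpw⟩⟩
  choose np hnp using key
  exact ⟨np, fun p hp => (hnp p hp).1, fun p hp => (hnp p hp).2.1, fun p hp => (hnp p hp).2.2⟩

end Pool.Agent.Lib.EV
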